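import Mathlib
import Pool.Agent.H5.Beurling

open MeasureTheory Set Filter Topology
open scoped Real Interval

/-!
# The cubic B-spline and its cosine transform

`Bs` is `C²`, vanishes outside `(-2, 2)`, and `Bs'' = Ds` (second difference of the triangle function).
Two integrations by parts give
`(2 π x)² cosT Bs x = - cosT Ds x = 4 sin² (π x) sq x = (2 π x)² sq x ^ 2`, so `cosT Bs x = sq x ^ 2` for
`x ≠ 0`; for `x = 0` by continuity of both sides.
-/

namespace Pool.Agent.H27.Cor

open Pool.Agent.H5 Pool.Agent.H6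

noncomputable def pp (u : ℝ) : ℝ := max u 0

/-- cubic B-spline -/
noncomputable def Bs (u : ℝ) : ℝ :=
  (pp (u + 2) ^ 3 - 4 * pp (u + 1) ^ 3 + 6 * pp u ^ 3 - 4 * pp (u - 1) ^ 3 + pp (u - 2) ^ 3) / 6

/-- its second derivative -/
noncomputable def Ds (u : ℝ) : ℝ := tri (u - 1) - 2 * tri u + tri (u + 1)

lemma continuous_Bs : Continuous Bs := by
  unfold Bs pp
  fun_prop

lemma Bsp_pp_nonneg {u : ℝ} (hu : 0 ≤ u) : pp u = u := max_eq_left hu

lemma Bsp_pp_nonpos {u : ℝ} (hu : u ≤ 0) : pp u = 0 := max_eq_right hu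

lemma Bsp_continuous_pp : Continuous pp := by
  unfold pp
  fun_prop

lemma Bs_eq_zero {u : ℝ} (hu : 2 ≤ |u|) : Bs u = 0 := by
  unfold Bs
  rcases le_abs.mp hu with h | h
  · rw [Bsp_pp_nonneg (by linarith), Bsp_pp_nonneg (by linarith), Bsp_pp_nonneg (by linarith),
      Bsp_pp_nonneg (by linarith), Bsp_pp_nonneg (by linarith)]
    ring
  · rw [Bsp_pp_nonpos (by linarith), Bsp_pp_nonpos (by linarith), Bsp_pp_nonpos (by linarith),
      Bsp_pp_nonpos (by linarith), Bsp_pp_nonpos (by linarith)]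
    ring

lemma Bsp_pp_neg (u : ℝ) : pp (-u) = pp u - u := by
  unfold pp
  rcases le_total u 0 with h | h
  · rw [max_eq_left (by linarith), max_eq_right h]
    ring
  · rw [max_eq_right (by linarith), max_eq_left h]
    ring

lemma Bsp_pp_mul (u : ℝ) : pp u * (pp u - u) = 0 := by
  unfold pp
  rcases le_total u 0 with h | h
  · rw [max_eq_right h]
    ring
  · rw [max_eq_left h]
    ring

lemma Bsp_pp_cube (u : ℝ) : pp (-u) ^ 3 = pp u ^ 3 - u ^ 3 := by
  rw [Bsp_pp_neg]
  have h := Bsp_pp_mul u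
  linear_combination (-3 * u) * h

lemma Bs_neg (u : ℝ) : Bs (-u) = Bs u := by
  unfold Bs
  rw [show -u + 2 = -(u - 2) by ring, show -u + 1 = -(u - 1) by ring, show -u - 1 = -(u + 1) by ring,
    show -u - 2 = -(u + 2) by ring, Bsp_pp_cube, Bsp_pp_cube, Bsp_pp_cube, Bsp_pp_cube, Bsp_pp_cube]
  ring

lemma Bs_cell0 {v : ℝ} (h0 : 0 ≤ v) (h1 : v ≤ 1) : Bs (v + 1) = (1 - v) ^ 3 / 6 := by
  unfold Bs
  rw [Bsp_pp_nonneg (u := v + 1 + 2) (by linarith), Bsp_pp_nonneg (u := v + 1 + 1) (by linarith),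
    Bsp_pp_nonneg (u := v + 1) (by linarith), Bsp_pp_nonneg (u := v + 1 - 1) (by linarith),
    Bsp_pp_nonpos (u := v + 1 - 2) (by linarith)]
  ring

lemma Bs_cell1 {v : ℝ} (h0 : 0 ≤ v) (h1 : v ≤ 1) : Bs v = (4 - 6 * v ^ 2 + 3 * v ^ 3) / 6 := by
  unfold Bs
  rw [Bsp_pp_nonneg (u := v + 2) (by linarith), Bsp_pp_nonneg (u := v + 1) (by linarith),
    Bsp_pp_nonneg (u := v) (by linarith), Bsp_pp_nonpos (u := v - 1) (by linarith),
    Bsp_pp_nonpos (u := v - 2) (by linarith)]
  ring

lemma Bs_cell2 {v : ℝ} (h0 : 0 ≤ v) (h1 : v ≤ 1) : Bs (v - 1) = (1 + 3 * v + 3 * v ^ 2 - 3 * v ^ 3) / 6 := by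
  unfold Bs
  rw [Bsp_pp_nonneg (u := v - 1 + 2) (by linarith), Bsp_pp_nonneg (u := v - 1 + 1) (by linarith),
    Bsp_pp_nonpos (u := v - 1) (by linarith), Bsp_pp_nonpos (u := v - 1 - 1) (by linarith),
    Bsp_pp_nonpos (u := v - 1 - 2) (by linarith)]
  ring

lemma Bs_cell3 {v : ℝ} (h0 : 0 ≤ v) (h1 : v ≤ 1) : Bs (v - 2) = v ^ 3 / 6 := by
  unfold Bs
  rw [Bsp_pp_nonneg (u := v - 2 + 2) (by linarith), Bsp_pp_nonpos (u := v - 2 + 1) (by linarith),
    Bsp_pp_nonpos (u := v - 2) (by linarith), Bsp_pp_nonpos (u := v - 2 - 1) (by linarith),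
    Bsp_pp_nonpos (u := v - 2 - 2) (by linarith)]
  ring

/-- the first derivative of the spline -/
noncomputable def BspE (u : ℝ) : ℝ :=
  (pp (u + 2) ^ 2 - 4 * pp (u + 1) ^ 2 + 6 * pp u ^ 2 - 4 * pp (u - 1) ^ 2 + pp (u - 2) ^ 2) / 2

lemma Bsp_hasDerivAt_sq (u : ℝ) : HasDerivAt (fun v => pp v ^ 2) (2 * pp u) u := by
  rcases lt_trichotomy u 0 with h | h | h
  · rw [Bsp_pp_nonpos h.le, mul_zero]
    apply (hasDerivAt_const u (0 : ℝ)).congr_of_eventuallyEq
    filter_upwards [Iio_mem_nhds h] with v hv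
    rw [Bsp_pp_nonpos (le_of_lt hv)]
    norm_num
  · subst h
    rw [Bsp_pp_nonneg le_rfl, mul_zero, hasDerivAt_iff_isLittleO]
    have h2 : (fun v : ℝ => v ^ 2) =o[𝓝 0] (fun v : ℝ => v) := by
      simpa using (Asymptotics.isLittleO_pow_id (𝕜 := ℝ) (n := 2) one_lt_two)
    have h3 : (fun v : ℝ => pp v ^ 2) =O[𝓝 0] (fun v : ℝ => v ^ 2) := by
      apply Asymptotics.IsBigO.of_bound 1
      filter_upwards with v
      rw [one_mul, Real.norm_eq_abs, Real.norm_eq_abs, abs_pow, abs_pow]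
      apply pow_le_pow_left₀ (abs_nonneg _)
      rcases le_total v 0 with h | h
      · rw [Bsp_pp_nonpos h, abs_zero]
        exact abs_nonneg _
      · rw [Bsp_pp_nonneg h]
    have h4 := h3.trans_isLittleO h2
    rw [Bsp_pp_nonneg le_rfl]
    simpa using h4
  · rw [Bsp_pp_nonneg h.le]
    have h1 : HasDerivAt (fun v : ℝ => v ^ 2) (2 * u) u := by
      simpa using hasDerivAt_pow 2 u
    apply h1.congr_of_eventuallyEq
    filter_upwards [Ioi_mem_nhds h] with v hv
    rw [Bsp_pp_nonneg (le_of_lt hv)]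

lemma Bsp_hasDerivAt_cube (u : ℝ) : HasDerivAt (fun v => pp v ^ 3) (3 * pp u ^ 2) u := by
  rcases lt_trichotomy u 0 with h | h | h
  · rw [Bsp_pp_nonpos h.le]
    have h0 : (3 * (0 : ℝ) ^ 2) = 0 := by norm_num
    rw [h0]
    apply (hasDerivAt_const u (0 : ℝ)).congr_of_eventuallyEq
    filter_upwards [Iio_mem_nhds h] with v hv
    rw [Bsp_pp_nonpos (le_of_lt hv)]
    norm_num
  · subst h
    rw [Bsp_pp_nonneg le_rfl]
    have h0 : (3 * (0 : ℝ) ^ 2) = 0 := by norm_num
    rw [h0, hasDerivAt_iff_isLittleO]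
    have h2 : (fun v : ℝ => v ^ 3) =o[𝓝 0] (fun v : ℝ => v) := by
      simpa using (Asymptotics.isLittleO_pow_id (𝕜 := ℝ) (n := 3) (by norm_num))
    have h3 : (fun v : ℝ => pp v ^ 3) =O[𝓝 0] (fun v : ℝ => v ^ 3) := by
      apply Asymptotics.IsBigO.of_bound 1
      filter_upwards with v
      rw [one_mul, Real.norm_eq_abs, Real.norm_eq_abs, abs_pow, abs_pow]
      apply pow_le_pow_left₀ (abs_nonneg _)
      rcases le_total v 0 with h | h
      · rw [Bsp_pp_nonpos h, abs_zero]
        exact abs_nonneg _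
      · rw [Bsp_pp_nonneg h]
    have h4 := h3.trans_isLittleO h2
    rw [Bsp_pp_nonneg le_rfl]
    simpa using h4
  · rw [Bsp_pp_nonneg h.le]
    have h1 : HasDerivAt (fun v : ℝ => v ^ 3) (3 * u ^ 2) u := by
      simpa using hasDerivAt_pow 3 u
    apply h1.congr_of_eventuallyEq
    filter_upwards [Ioi_mem_nhds h] with v hv
    rw [Bsp_pp_nonneg (le_of_lt hv)]

lemma Bsp_hasDerivAt_pp {u : ℝ} : ∀ c : ℝ, HasDerivAt (fun v => pp (v + c) ^ 3) (3 * pp (u + c) ^ 2) u ∧
    HasDerivAt (fun v => pp (v + c) ^ 2) (2 * pp (u + c)) u := by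
  intro c
  exact ⟨HasDerivAt.comp_add_const u c (Bsp_hasDerivAt_cube (u + c)),
    HasDerivAt.comp_add_const u c (Bsp_hasDerivAt_sq (u + c))⟩

lemma Bsp_tri (v : ℝ) : tri v = pp (v + 1) - 2 * pp v + pp (v - 1) := by
  rcases le_total v (-1) with h | h
  · rw [tri_eq_zero (by rw [le_abs]; right; linarith), Bsp_pp_nonpos (by linarith), Bsp_pp_nonpos (by linarith),
      Bsp_pp_nonpos (by linarith)]
    ring
  rcases le_total v 0 with h' | h'
  · rw [tri_eq (by rw [abs_le]; constructor <;> linarith), abs_of_nonpos h', Bsp_pp_nonneg (by linarith),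
      Bsp_pp_nonpos (by linarith), Bsp_pp_nonpos (by linarith)]
    ring
  rcases le_total v 1 with h'' | h''
  · rw [tri_eq (by rw [abs_le]; constructor <;> linarith), abs_of_nonneg h', Bsp_pp_nonneg (by linarith),
      Bsp_pp_nonneg (by linarith), Bsp_pp_nonpos (by linarith)]
    ring
  · rw [tri_eq_zero (by rw [le_abs]; left; linarith), Bsp_pp_nonneg (by linarith), Bsp_pp_nonneg (by linarith),
      Bsp_pp_nonneg (by linarith)]
    ring

lemma Bsp_Ds (u : ℝ) : Ds u = pp (u + 2) - 4 * pp (u + 1) + 6 * pp u - 4 * pp (u - 1) + pp (u - 2) := by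
  unfold Ds
  rw [Bsp_tri, Bsp_tri, Bsp_tri]
  rw [show u - 1 + 1 = u by ring, show u - 1 - 1 = u - 2 by ring, show u + 1 + 1 = u + 2 by ring,
    show u + 1 - 1 = u by ring]
  ring

lemma Bsp_deriv1 (u : ℝ) : HasDerivAt Bs (BspE u) u := by
  have h := fun c => (Bsp_hasDerivAt_pp (u := u) c).1
  have h1 := ((((h 2).sub ((h 1).const_mul 4)).add ((h 0).const_mul 6)).sub ((h (-1)).const_mul 4)).add (h (-2))
  have h2 := h1.div_const 6
  have e : Bs = fun v => (pp (v + 2) ^ 3 - 4 * pp (v + 1) ^ 3 + 6 * pp (v + 0) ^ 3 - 4 * pp (v + -1) ^ 3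
      + pp (v + -2) ^ 3) / 6 := by
    ext v
    unfold Bs
    rw [add_zero, ← sub_eq_add_neg, ← sub_eq_add_neg]
  rw [e]
  refine h2.congr_deriv ?_
  unfold BspE
  rw [add_zero, ← sub_eq_add_neg, ← sub_eq_add_neg]
  ring

lemma Bsp_deriv2 (u : ℝ) : HasDerivAt BspE (Ds u) u := by
  have h := fun c => (Bsp_hasDerivAt_pp (u := u) c).2
  have h1 := ((((h 2).sub ((h 1).const_mul 4)).add ((h 0).const_mul 6)).sub ((h (-1)).const_mul 4)).add (h (-2))
  have h2 := h1.div_const 2
  have e : BspE = fun v => (pp (v + 2) ^ 2 - 4 * pp (v + 1) ^ 2 + 6 * pp (v + 0) ^ 2 - 4 * pp (v + -1) ^ 2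
      + pp (v + -2) ^ 2) / 2 := by
    ext v
    unfold BspE
    rw [add_zero, ← sub_eq_add_neg, ← sub_eq_add_neg]
  rw [e]
  refine h2.congr_deriv ?_
  rw [Bsp_Ds, add_zero, ← sub_eq_add_neg, ← sub_eq_add_neg]
  ring

lemma Bsp_continuous_E : Continuous BspE := by
  unfold BspE pp
  fun_prop

lemma Bsp_continuous_Ds : Continuous Ds := by
  unfold Ds
  have := continuous_tri
  fun_prop

lemma Bsp_E_eq_zero {u : ℝ} (hu : 2 ≤ |u|) : BspE u = 0 := by
  unfold BspE
  rcases le_abs.mp hu with h | h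
  · rw [Bsp_pp_nonneg (by linarith), Bsp_pp_nonneg (by linarith), Bsp_pp_nonneg (by linarith),
      Bsp_pp_nonneg (by linarith), Bsp_pp_nonneg (by linarith)]
    ring
  · rw [Bsp_pp_nonpos (by linarith), Bsp_pp_nonpos (by linarith), Bsp_pp_nonpos (by linarith),
      Bsp_pp_nonpos (by linarith), Bsp_pp_nonpos (by linarith)]
    ring

lemma Bsp_compactSupport {f : ℝ → ℝ} (hf : ∀ u, 2 ≤ |u| → f u = 0) : HasCompactSupport f := by
  apply HasCompactSupport.intro (isCompact_Icc (a := (-2 : ℝ)) (b := 2))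
  intro x hx
  apply hf
  by_contra h
  rw [not_le, abs_lt] at h
  exact hx ⟨h.1.le, h.2.le⟩

lemma integrable_Bs : Integrable Bs :=
  continuous_Bs.integrable_of_hasCompactSupport (Bsp_compactSupport fun _ h => Bs_eq_zero h)

lemma Bsp_integrable_E : Integrable BspE :=
  Bsp_continuous_E.integrable_of_hasCompactSupport (Bsp_compactSupport fun _ h => Bsp_E_eq_zero h)

lemma Bsp_integrable_Ds : Integrable Ds := by
  unfold Ds
  exact ((integrable_tri.comp_sub_right 1).sub (integrable_tri.const_mul 2)).add (integrable_tri.comp_add_right 1)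

lemma Bsp_integrable_mul {f : ℝ → ℝ} (hf : Integrable f) {g : ℝ → ℝ} (hg : Continuous g) {C : ℝ}
    (hC : ∀ u, |g u| ≤ C) : Integrable (fun u => f u * g u) := by
  apply Integrable.mul_bdd (c := C) hf hg.aestronglyMeasurable
  exact ae_of_all _ fun u => by rw [Real.norm_eq_abs]; exact hC u

lemma Bsp_parts (x : ℝ) : (2 * π * x) ^ 2 * cosT Bs x = - cosT Ds x := by
  set a := 2 * π * x with ha
  have hc : ∀ u : ℝ, 2 * π * u * x = a * u := fun u => by rw [ha]; ring
  have e1 : a * cosT Bs x = - ∫ u, BspE u * Real.sin (a * u) := by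
    unfold cosT
    rw [← integral_const_mul]
    have h1 : ∀ u : ℝ, HasDerivAt (fun u => Real.sin (a * u)) (a * Real.cos (a * u)) u := by
      intro u
      refine (((hasDerivAt_id u).const_mul a).sin).congr_deriv ?_
      simp only [id_eq]
      ring
    have := integral_mul_deriv_eq_deriv_mul_of_integrable (u := Bs) (v := fun u => Real.sin (a * u))
      (u' := BspE) (v' := fun u => a * Real.cos (a * u)) (fun x _ => Bsp_deriv1 x) (fun x _ => h1 x) ?_ ?_ ?_
    · rw [← this]
      congr 1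
      ext u
      rw [hc]
      ring
    · exact Bsp_integrable_mul integrable_Bs (by fun_prop) (C := |a|) (fun u => by
        rw [abs_mul]
        exact mul_le_of_le_one_right (abs_nonneg _) (Real.abs_cos_le_one _))
    · exact Bsp_integrable_mul Bsp_integrable_E (by fun_prop) (C := 1) (fun u => Real.abs_sin_le_one _)
    · exact Bsp_integrable_mul integrable_Bs (by fun_prop) (C := 1) (fun u => Real.abs_sin_le_one _)
  have e2 : a * ∫ u, BspE u * Real.sin (a * u) = cosT Ds x := by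
    unfold cosT
    rw [← integral_const_mul]
    have h1 : ∀ u : ℝ, HasDerivAt (fun u => - Real.cos (a * u)) (a * Real.sin (a * u)) u := by
      intro u
      refine (((hasDerivAt_id u).const_mul a).cos.neg).congr_deriv ?_
      simp only [id_eq]
      ring
    have := integral_mul_deriv_eq_deriv_mul_of_integrable (u := BspE) (v := fun u => - Real.cos (a * u))
      (u' := Ds) (v' := fun u => a * Real.sin (a * u)) (fun x _ => Bsp_deriv2 x) (fun x _ => h1 x) ?_ ?_ ?_
    · calc ∫ u, a * (BspE u * Real.sin (a * u)) = ∫ u, BspE u * (a * Real.sin (a * u)) := by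
            congr 1
            ext u
            ring
        _ = - ∫ u, Ds u * - Real.cos (a * u) := this
        _ = ∫ u, Ds u * Real.cos (2 * π * u * x) := by
            rw [← integral_neg]
            congr 1
            ext u
            rw [hc]
            ring
    · exact Bsp_integrable_mul Bsp_integrable_E (by fun_prop) (C := |a|) (fun u => by
        rw [abs_mul]
        exact mul_le_of_le_one_right (abs_nonneg _) (Real.abs_sin_le_one _))
    · exact Bsp_integrable_mul Bsp_integrable_Ds (by fun_prop) (C := 1) (fun u => by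
        rw [abs_neg]
        exact Real.abs_cos_le_one _)
    · exact Bsp_integrable_mul Bsp_integrable_E (by fun_prop) (C := 1) (fun u => by
        rw [abs_neg]
        exact Real.abs_cos_le_one _)
  rw [pow_two, mul_assoc, e1, mul_neg, e2]

lemma Bsp_cosT_Ds (x : ℝ) : cosT Ds x = -4 * Real.sin (π * x) ^ 2 * H5.sq x := by
  have h1 : ∫ u, tri (u - 1) * Real.cos (2 * π * u * x) = ∫ u, tri u * Real.cos (2 * π * (u + 1) * x) := by
    rw [← integral_sub_right_eq_self (fun u => tri u * Real.cos (2 * π * (u + 1) * x)) 1]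
    congr 1
    ext u
    rw [sub_add_cancel]
  have h2 : ∫ u, tri (u + 1) * Real.cos (2 * π * u * x) = ∫ u, tri u * Real.cos (2 * π * (u - 1) * x) := by
    rw [← integral_add_right_eq_self (fun u => tri u * Real.cos (2 * π * (u - 1) * x)) 1]
    congr 1
    ext u
    rw [add_sub_cancel_right]
  have i0 : ∀ c : ℝ, Integrable (fun u => tri u * Real.cos (2 * π * (u + c) * x)) := fun c =>
    Bsp_integrable_mul integrable_tri (by fun_prop) (C := 1) (fun u => Real.abs_cos_le_one _)
  have i1 : ∀ c : ℝ, Integrable (fun u => tri (u + c) * Real.cos (2 * π * u * x)) := fun c =>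
    Bsp_integrable_mul (integrable_tri.comp_add_right c) (by fun_prop) (C := 1) (fun u => Real.abs_cos_le_one _)
  have h3 : cosT Ds x = (∫ u, tri (u - 1) * Real.cos (2 * π * u * x)) - 2 * cosT tri x
      + ∫ u, tri (u + 1) * Real.cos (2 * π * u * x) := by
    unfold cosT Ds
    have j1 := i1 (-1)
    have j2 := (i1 0).const_mul 2
    have j3 := i1 1
    simp only [← sub_eq_add_neg, add_zero] at j1 j2 j3
    have j4 : Integrable (fun u => tri (u - 1) * Real.cos (2 * π * u * x) - 2 * (tri u * Real.cos (2 * π * u * x))) :=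
      j1.sub j2
    rw [← integral_const_mul, ← integral_sub j1 j2, ← integral_add j4 j3]
    congr 1
    ext u
    ring
  have h4 : (∫ u, tri u * Real.cos (2 * π * (u + 1) * x)) + ∫ u, tri u * Real.cos (2 * π * (u - 1) * x)
      = 2 * Real.cos (2 * π * x) * cosT tri x := by
    have j1 := i0 1
    have j2 := i0 (-1)
    simp only [← sub_eq_add_neg] at j1 j2
    unfold cosT
    rw [← integral_add j1 j2, ← integral_const_mul]
    congr 1
    ext u
    rw [show 2 * π * (u + 1) * x = 2 * π * u * x + 2 * π * x by ring,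
      show 2 * π * (u - 1) * x = 2 * π * u * x - 2 * π * x by ring, Real.cos_add, Real.cos_sub]
    ring
  rw [h3, h1, h2]
  have h5 : cosT tri x = H5.sq x := by rw [cosT_tri']
  have h6 : Real.cos (2 * π * x) = 1 - 2 * Real.sin (π * x) ^ 2 := by
    rw [show 2 * π * x = 2 * (π * x) by ring, Real.cos_two_mul, Real.cos_sq']
    ring
  rw [h6, h5] at h4
  rw [h5]
  linear_combination h4

lemma Bsp_continuous_cosT : Continuous (cosT Bs) := by
  unfold cosT
  apply continuous_of_dominated (bound := fun u => |Bs u|)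
  · intro x
    exact (by have := continuous_Bs; fun_prop : Continuous fun u => Bs u * Real.cos (2 * π * u * x)).aestronglyMeasurable
  · intro x
    apply ae_of_all
    intro u
    rw [Real.norm_eq_abs, abs_mul]
    exact mul_le_of_le_one_right (abs_nonneg _) (Real.abs_cos_le_one _)
  · exact integrable_Bs.abs
  · apply ae_of_all
    intro u
    fun_prop

theorem cosT_Bs (x : ℝ) : cosT Bs x = H5.sq x ^ 2 := by
  have h : cosT Bs = fun x => H5.sq x ^ 2 := by
    apply Continuous.ext_on (dense_compl_singleton (0 : ℝ)) Bsp_continuous_cosT (continuous_sq.pow 2)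
    intro x hx
    have hx' : x ≠ 0 := hx
    have h1 := Bsp_parts x
    rw [Bsp_cosT_Ds] at h1
    have h2 := sq_mul x
    have hp := Real.pi_ne_zero
    have h3 : Real.sin (π * x) ^ 2 = H5.sq x * (π * x) ^ 2 := by
      rw [mul_pow, mul_left_comm, h2]
      field_simp
    rw [h3] at h1
    have h4 : (2 * π * x) ^ 2 ≠ 0 := by positivity
    apply mul_left_cancel₀ h4
    rw [h1]
    change -(-4 * (H5.sq x * (π * x) ^ 2) * H5.sq x) = (2 * π * x) ^ 2 * H5.sq x ^ 2
    ring
  rw [h]

end Pool.Agent.H27.Cor
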