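import Mathlib
import Pool.Agent.H5.Beurling

open MeasureTheory Set Filter Topology
open scoped Real Interval

/-!
# Piecewise linear autocorrelations as test functions
-/

namespace Pool.Agent.H27.Cor

open Pool.Agent.H5 Pool.Agent.H6

section
variable (φ : ℕ → ℝ) (n m : ℕ)

/-- autocorrelation of `φ` -/
noncomputable def AC (k : ℕ) : ℝ := ∑ l ∈ Finset.range m, φ l * φ (l + k)

/-- piecewise linear interpolation of the autocorrelation on the grid of mesh `1 / n` -/
noncomputable def rh (t : ℝ) : ℝ :=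
  ∑ l ∈ Finset.range m, ∑ j ∈ Finset.range m, φ l * φ j * tri (n * t - ((j : ℝ) - l))

lemma rh_neg (t : ℝ) : rh φ n m (-t) = rh φ n m t := by
  unfold rh
  rw [Finset.sum_comm]
  apply Finset.sum_congr rfl
  intro l _
  apply Finset.sum_congr rfl
  intro j _
  rw [← tri_even, mul_comm (φ j)]
  congr 2
  ring

lemma continuous_rh : Continuous (rh φ n m) := by
  unfold rh
  have := continuous_tri
  fun_prop

lemma rh_zero (hn : 0 < n) {t : ℝ} (ht : (m : ℝ) / n ≤ |t|) : rh φ n m t = 0 := by
  unfold rh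
  apply Finset.sum_eq_zero
  intro l hl
  apply Finset.sum_eq_zero
  intro j hj
  rw [Finset.mem_range] at hl hj
  have hn' : (0 : ℝ) < n := by exact_mod_cast hn
  have h1 : (m : ℝ) ≤ |(n : ℝ) * t| := by
    rw [abs_mul, abs_of_pos hn']
    rwa [div_le_iff₀' hn'] at ht
  have h2 : |(j : ℝ) - l| ≤ m - 1 := by
    have a1 : (j : ℝ) + 1 ≤ m := by exact_mod_cast hj
    have a2 : (l : ℝ) + 1 ≤ m := by exact_mod_cast hl
    have a3 : (0 : ℝ) ≤ j := by positivity
    have a4 : (0 : ℝ) ≤ l := by positivity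
    rw [abs_le]; constructor <;> linarith
  have h3 := abs_sub_abs_le_abs_sub ((n : ℝ) * t) ((j : ℝ) - l)
  rw [tri_eq_zero (by linarith), mul_zero]

variable {φ n m}

lemma integrable_tri_sin (y : ℝ) : Integrable (fun t => tri t * Real.sin (2 * π * t * y)) := by
  apply Integrable.mul_bdd (c := 1) integrable_tri
  · apply Continuous.aestronglyMeasurable; fun_prop
  · exact ae_of_all _ fun u => by rw [Real.norm_eq_abs]; exact Real.abs_sin_le_one _

lemma integral_tri_sin (y : ℝ) : ∫ t, tri t * Real.sin (2 * π * t * y) = 0 := by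
  have h := integral_neg_eq_self (fun t => tri t * Real.sin (2 * π * t * y)) volume
  have h1 : ∀ t : ℝ, tri (-t) * Real.sin (2 * π * -t * y) = -(tri t * Real.sin (2 * π * t * y)) := by
    intro t
    rw [tri_even, show 2 * π * -t * y = -(2 * π * t * y) by ring, Real.sin_neg]
    ring
  simp_rw [h1] at h
  rw [integral_neg] at h
  linarith

lemma integral_tri_cos (hn : 0 < n) (c x : ℝ) : ∫ t, tri (n * t - c) * Real.cos (2 * π * t * x)
    = Real.cos (2 * π * c * (x / n)) * ((1 / n) * H5.sq (x / n)) := by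
  have hn' : (0 : ℝ) < n := by exact_mod_cast hn
  have h0 := Measure.integral_comp_mul_left (fun u : ℝ => tri (u - c) * Real.cos (2 * π * u * (x / n))) (n : ℝ)
  have h1 : ∀ t : ℝ, tri (n * t - c) * Real.cos (2 * π * t * x)
      = tri ((n : ℝ) * t - c) * Real.cos (2 * π * ((n : ℝ) * t) * (x / n)) := by
    intro t
    congr 2
    field_simp
  simp_rw [h1]
  rw [h0, abs_of_pos (by positivity), smul_eq_mul]
  rw [← integral_add_right_eq_self (fun u => tri (u - c) * Real.cos (2 * π * u * (x / n))) c]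
  have h2 : ∀ t, tri (t + c - c) * Real.cos (2 * π * (t + c) * (x / n))
      = Real.cos (2 * π * c * (x / n)) * (tri t * Real.cos (2 * π * t * (x / n)))
        - Real.sin (2 * π * c * (x / n)) * (tri t * Real.sin (2 * π * t * (x / n))) := by
    intro t
    rw [add_sub_cancel_right, show 2 * π * (t + c) * (x / n) = 2 * π * t * (x / n) + 2 * π * c * (x / n) by ring, Real.cos_add]
    ring
  simp_rw [h2]
  rw [integral_sub ((integrable_mul_cos integrable_tri _).const_mul _) ((integrable_tri_sin _).const_mul _),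
    integral_const_mul, integral_const_mul]
  have h3 := integral_tri_sin (x / n)
  have h4 := cosT_tri (x / n)
  unfold cosT at h4
  rw [h3, h4]
  unfold H5.sq
  ring

lemma integrable_tri_cos (hn : 0 < n) (c x : ℝ) : Integrable (fun t => tri (n * t - c) * Real.cos (2 * π * t * x)) := by
  have hn' : (0 : ℝ) < n := by exact_mod_cast hn
  have h1 : Integrable (fun t : ℝ => tri (n * t - c)) := by
    have h2 : Integrable (fun t : ℝ => tri (t - c)) := integrable_tri.comp_sub_right c
    exact h2.comp_mul_left' hn'.ne'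
  exact integrable_mul_cos h1 x

/-- The cosine transform. -/
lemma cosT_rh (hn : 0 < n) (x : ℝ) : cosT (rh φ n m) x = (1 / n) * H5.sq (x / n) *
    ((∑ j ∈ Finset.range m, φ j * Real.cos (2 * π * j * (x / n))) ^ 2
      + (∑ j ∈ Finset.range m, φ j * Real.sin (2 * π * j * (x / n))) ^ 2) := by
  unfold cosT rh
  have h1 : ∀ t : ℝ, (∑ l ∈ Finset.range m, ∑ j ∈ Finset.range m, φ l * φ j * tri (n * t - ((j : ℝ) - l))) * Real.cos (2 * π * t * x)
      = ∑ l ∈ Finset.range m, ∑ j ∈ Finset.range m, φ l * φ j * (tri (n * t - ((j : ℝ) - l)) * Real.cos (2 * π * t * x)) := by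
    intro t
    rw [Finset.sum_mul]
    apply Finset.sum_congr rfl
    intro l _
    rw [Finset.sum_mul]
    apply Finset.sum_congr rfl
    intro j _
    ring
  simp_rw [h1]
  rw [integral_finsetSum _ (fun l _ => integrable_finsetSum _ fun j _ => (integrable_tri_cos hn _ x).const_mul _)]
  rw [pow_two (∑ j ∈ Finset.range m, φ j * Real.cos (2 * π * j * (x / n))),
    pow_two (∑ j ∈ Finset.range m, φ j * Real.sin (2 * π * j * (x / n))), Finset.sum_mul_sum, Finset.sum_mul_sum,
    ← Finset.sum_add_distrib, Finset.mul_sum]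
  apply Finset.sum_congr rfl
  intro l _
  rw [integral_finsetSum _ (fun j _ => (integrable_tri_cos hn _ x).const_mul _), ← Finset.sum_add_distrib, Finset.mul_sum]
  apply Finset.sum_congr rfl
  intro j _
  rw [integral_const_mul, integral_tri_cos hn, show 2 * π * ((j : ℝ) - l) * (x / n) = 2 * π * j * (x / n) - 2 * π * l * (x / n) by ring,
    Real.cos_sub]
  ring

lemma cosT_rh_nonneg (hn : 0 < n) (x : ℝ) : 0 ≤ cosT (rh φ n m) x := by
  rw [cosT_rh hn]
  have := H5.sq_nonneg' (x / n)
  positivity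

lemma cosT_rh_zero (hn : 0 < n) : cosT (rh φ n m) 0 = (1 / n) * (∑ j ∈ Finset.range m, φ j) ^ 2 := by
  rw [cosT_rh hn]
  simp [H5.sq_zero]

/-- Interpolation property. -/
lemma rh_eq (hφ : ∀ j, m ≤ j → φ j = 0) (i : ℕ) {t : ℝ} (h1 : (i : ℝ) ≤ n * t) (h2 : n * t ≤ i + 1) :
    rh φ n m t = AC φ m i * (i + 1 - n * t) + AC φ m (i + 1) * (n * t - i) := by
  unfold rh AC
  rw [Finset.sum_mul, Finset.sum_mul, ← Finset.sum_add_distrib]
  apply Finset.sum_congr rfl
  intro l _
  have key : ∀ j : ℕ, φ l * φ j * tri (n * t - ((j : ℝ) - l))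
      = (if j = l + i then φ l * φ j * (i + 1 - n * t) else 0) + (if j = l + (i + 1) then φ l * φ j * (n * t - i) else 0) := by
    intro j
    by_cases c1 : j = l + i
    · rw [if_pos c1, if_neg (by omega), add_zero]
      have : (j : ℝ) - l = i := by rw [c1]; push_cast; ring
      rw [this, tri_eq (by rw [abs_le]; constructor <;> linarith), abs_of_nonneg (by linarith)]
      ring
    · rw [if_neg c1, zero_add]
      by_cases c2 : j = l + (i + 1)
      · rw [if_pos c2]
        have : (j : ℝ) - l = i + 1 := by rw [c2]; push_cast; ring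
        rw [this, tri_eq (by rw [abs_le]; constructor <;> linarith), abs_of_nonpos (by linarith)]
        ring
      · rw [if_neg c2, tri_eq_zero, mul_zero]
        rcases lt_or_ge j (l + i) with c3 | c3
        · have : (j : ℝ) + 1 ≤ l + i := by exact_mod_cast c3
          rw [abs_of_nonneg (by linarith)]
          linarith
        · have c4 : l + i + 2 ≤ j := by omega
          have : (l : ℝ) + i + 2 ≤ j := by exact_mod_cast c4
          rw [abs_of_nonpos (by linarith)]
          linarith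
  simp_rw [key]
  rw [Finset.sum_add_distrib, Finset.sum_ite_eq', Finset.sum_ite_eq']
  congr 1
  · split_ifs with h
    · rfl
    · rw [Finset.mem_range, not_lt] at h
      rw [hφ _ h]; ring
  · split_ifs with h
    · rfl
    · rw [Finset.mem_range, not_lt] at h
      rw [hφ _ h]; ring

lemma rh_at_zero (hφ : ∀ j, m ≤ j → φ j = 0) : rh φ n m 0 = AC φ m 0 := by
  rw [rh_eq hφ 0 (by simp) (by simp)]
  simp

lemma rh_nonpos (hn : 0 < n) (hφ : ∀ j, m ≤ j → φ j = 0) (hneg : ∀ k, n ≤ k → AC φ m k ≤ 0) {t : ℝ} (ht : 1 ≤ |t|) :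
    rh φ n m t ≤ 0 := by
  have key : ∀ t : ℝ, 1 ≤ t → rh φ n m t ≤ 0 := by
    intro t ht
    have hn' : (0 : ℝ) < n := by exact_mod_cast hn
    have h0 : 0 ≤ (n : ℝ) * t := by positivity
    have h1 := Nat.floor_le h0
    have h2 := (Nat.lt_floor_add_one ((n : ℝ) * t)).le
    have h3 : n ≤ ⌊(n : ℝ) * t⌋₊ := by
      apply Nat.le_floor
      nlinarith
    rw [rh_eq hφ ⌊(n : ℝ) * t⌋₊ h1 h2]
    have h4 := hneg _ h3
    have h5 := hneg (⌊(n : ℝ) * t⌋₊ + 1) (by omega)
    nlinarith
  rcases abs_choice t with h | h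
  · exact key t (by rwa [h] at ht)
  · rw [← rh_neg]
    exact key (-t) (by rwa [h] at ht)

/-- Integral over one cell against a linear weight. -/
lemma integral_cell (hn : 0 < n) (hφ : ∀ j, m ≤ j → φ j = 0) (i : ℕ) (α β : ℝ) :
    ∫ t in ((i : ℝ) / n)..(((i + 1 : ℕ) : ℝ) / n), (α + β * t) * rh φ n m t
      = AC φ m i * (α / (2 * n) + β * (i / 2 + 1 / 6) / n ^ 2) + AC φ m (i + 1) * (α / (2 * n) + β * (i / 2 + 1 / 3) / n ^ 2) := by
  have hn' : (0 : ℝ) < n := by exact_mod_cast hn
  set a := AC φ m i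
  set b := AC φ m (i + 1)
  have hle : (i : ℝ) / n ≤ ((i + 1 : ℕ) : ℝ) / n := by
    apply div_le_div_of_nonneg_right _ hn'.le
    push_cast; linarith
  have h1 : ∫ t in ((i : ℝ) / n)..(((i + 1 : ℕ) : ℝ) / n), (α + β * t) * rh φ n m t
      = ∫ t in ((i : ℝ) / n)..(((i + 1 : ℕ) : ℝ) / n), (α + β * t) * (a * (i + 1 - n * t) + b * (n * t - i)) := by
    apply intervalIntegral.integral_congr
    intro t ht
    rw [uIcc_of_le hle] at ht
    simp only
    rw [rh_eq hφ i]
    · have := ht.1
      rwa [div_le_iff₀' hn'] at this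
    · have := ht.2
      rw [le_div_iff₀' hn'] at this
      push_cast at this
      exact this
  rw [h1]
  have h2 : ∀ t ∈ uIcc ((i : ℝ) / n) (((i + 1 : ℕ) : ℝ) / n), HasDerivAt
      (fun t : ℝ => α * (a * ((i + 1) * t - n * t ^ 2 / 2) + b * (n * t ^ 2 / 2 - i * t))
        + β * (a * ((i + 1) * t ^ 2 / 2 - n * t ^ 3 / 3) + b * (n * t ^ 3 / 3 - i * t ^ 2 / 2)))
      ((α + β * t) * (a * (i + 1 - n * t) + b * (n * t - i))) t := by
    intro t _
    have d1 : HasDerivAt (fun t : ℝ => t) 1 t := hasDerivAt_id t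
    have d2 : HasDerivAt (fun t : ℝ => t ^ 2) (2 * t) t := by simpa using hasDerivAt_pow 2 t
    have d3 : HasDerivAt (fun t : ℝ => t ^ 3) (3 * t ^ 2) t := by simpa using hasDerivAt_pow 3 t
    have e1 : HasDerivAt (fun t : ℝ => a * ((i + 1) * t - n * t ^ 2 / 2) + b * (n * t ^ 2 / 2 - i * t))
        (a * ((i + 1) * 1 - n * (2 * t) / 2) + b * (n * (2 * t) / 2 - i * 1)) t :=
      (((d1.const_mul _).sub ((d2.const_mul _).div_const 2)).const_mul a).add
        ((((d2.const_mul _).div_const 2).sub (d1.const_mul _)).const_mul b)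
    have e2 : HasDerivAt (fun t : ℝ => a * ((i + 1) * t ^ 2 / 2 - n * t ^ 3 / 3) + b * (n * t ^ 3 / 3 - i * t ^ 2 / 2))
        (a * ((i + 1) * (2 * t) / 2 - n * (3 * t ^ 2) / 3) + b * (n * (3 * t ^ 2) / 3 - i * (2 * t) / 2)) t :=
      ((((d2.const_mul _).div_const 2).sub ((d3.const_mul _).div_const 3)).const_mul a).add
        ((((d3.const_mul _).div_const 3).sub ((d2.const_mul _).div_const 2)).const_mul b)
    refine ((e1.const_mul α).add (e2.const_mul β)).congr_deriv ?_
    ring
  rw [intervalIntegral.integral_eq_sub_of_hasDerivAt h2 (by apply Continuous.intervalIntegrable; fun_prop)]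
  push_cast
  field_simp
  ring

/-- Integral over several cells. -/
lemma integral_cells (hn : 0 < n) (hφ : ∀ j, m ≤ j → φ j = 0) {p q : ℕ} (hpq : p ≤ q) (α β : ℝ) :
    ∫ t in ((p : ℝ) / n)..((q : ℝ) / n), (α + β * t) * rh φ n m t
      = ∑ i ∈ Finset.Ico p q, (AC φ m i * (α / (2 * n) + β * (i / 2 + 1 / 6) / n ^ 2)
        + AC φ m (i + 1) * (α / (2 * n) + β * (i / 2 + 1 / 3) / n ^ 2)) := by
  have hc := continuous_rh φ n m
  rw [← intervalIntegral.sum_integral_adjacent_intervals_Ico (a := fun i : ℕ => (i : ℝ) / n) hpq]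
  · apply Finset.sum_congr rfl
    intro i _
    exact integral_cell hn hφ i α β
  · intro i _
    apply Continuous.intervalIntegrable
    fun_prop

end

end Pool.Agent.H27.Cor
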