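import Mathlib
import Pool.Agent.H5.Freq
import Pool.Agent.H27.Cor.Base

open MeasureTheory Set Filter Topology
open scoped Real Interval ContDiff Convolution

/-!
# Test functions for the pair sums when the weighted form factor is at least `3/2 - |α| - ε` for `|α| ≥ 1`
-/

namespace Pool.Agent.H27.Cor

open Pool.Agent.H5 Pool.Agent.H6

section
variable {ι : Type*} {γ w : ι → ℝ} {F : ℝ → Finset ι} {CR : ℝ}

/-- Lower bound for the (weighted) form factor outside `(-1, 1)`. -/
def LBH (γ w : ι → ℝ) (F : ℝ → Finset ι) : Prop :=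
  ∀ ε : ℝ, 0 < ε → ∀ᶠ T in atTop, ∀ α : ℝ, 1 ≤ |α| → 3 / 2 - |α| - ε ≤ FF γ w F T α

lemma exists_bump : ∃ b : ℝ → ℝ, ContDiff ℝ ∞ b ∧ (∀ x, b (-x) = b x) ∧ (∀ x, 0 ≤ b x) ∧ (∀ x, b x ≤ 1) ∧
    (∀ x, |x| ≤ 29 / 16 → b x = 1) ∧ (∀ x, 31 / 16 ≤ |x| → b x = 0) := by
  let φ : ContDiffBump (0 : ℝ) := ⟨29 / 16, 31 / 16, by norm_num, by norm_num⟩
  refine ⟨φ, φ.contDiff, fun x => ?_, fun x => φ.nonneg, fun x => φ.le_one, fun x hx => ?_, fun x hx => ?_⟩
  · exact φ.neg x
  · apply φ.one_of_mem_closedBall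
    rw [Metric.mem_closedBall, Real.dist_eq, sub_zero]
    exact hx
  · apply φ.zero_of_le_dist
    rw [Real.dist_eq, sub_zero]
    exact hx

lemma SF_eq_PS (T : ℝ) (f : ℝ → ℝ) : SF γ w F T f = (1 / PC.norm T) * PS γ w (F T) (Real.log T) f := by
  unfold SF PS
  congr 1
  apply Finset.sum_congr rfl
  intro i _
  apply Finset.sum_congr rfl
  intro j _
  rw [mul_comm (Real.log T)]

/-- Lower bound for a nonnegative function living on `1 ≤ |x| ≤ 7/4`. -/
theorem outer_lower [Countable ι] (I : Inputs γ w F CR) (hLB : LBH γ w F) {h : ℝ → ℝ} (hc : Continuous h)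
    (he : ∀ x, h (-x) = h x) (hn : ∀ x, 0 ≤ h x) (h1 : ∀ x, |x| ≤ 1 → h x = 0) (h2 : ∀ x, 7 / 4 ≤ |x| → h x = 0)
    {ε : ℝ} (hε : 0 < ε) :
    ∀ᶠ T in atTop, (∫ x, max (3 / 2 - |x|) 0 * h x) - ε ≤ SF γ w F T (cosT h) := by
  obtain ⟨B, hB, hmass⟩ := mass_bound I
  have hhi : Integrable h := integrable_of_supp hc h2
  set M := ∫ x, h x with hM
  have hM0 : 0 ≤ M := integral_nonneg hn
  set η := ε / (100 * (B + 1)) with hη
  have hη0 : 0 < η := by positivity
  obtain ⟨g₂, hg2s, hg2e, hg20, hg2⟩ := exists_smooth_approx hc he (show (7 / 4 : ℝ) < 29 / 16 by norm_num) h2 hη0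
  obtain ⟨b, hbs, hbe, hb0, hb1, hbI, hbO⟩ := exists_bump
  set g₃ : ℝ → ℝ := fun x => g₂ x + η * b x with hg3
  have ng₃ : Nice g₃ := by
    refine ⟨?_, ?_, 31 / 16, by norm_num, ?_⟩
    · exact hg2s.add (contDiff_const.mul hbs)
    · intro x; simp only [hg3, hg2e, hbe]
    · intro x hx
      simp only [hg3]
      rw [hg20 x (by linarith), hbO x hx]; ring
  have hg3c : Continuous g₃ := ng₃.smooth.continuous
  have hg3i : Integrable g₃ := ng₃.integrable
  have hle : ∀ x, h x ≤ g₃ x := by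
    intro x
    simp only [hg3]
    rcases le_or_gt |x| (29 / 16) with hx | hx
    · rw [hbI x hx, mul_one]
      have := (abs_le.mp (hg2 x)).1
      linarith
    · rw [hg20 x hx.le, h2 x (by linarith), zero_add]
      exact mul_nonneg hη0.le (hb0 x)
  have hclose : ∀ x, |g₃ x - h x| ≤ (32 * η) * gg0 x := by
    intro x
    rw [abs_of_nonneg (by linarith [hle x])]
    rcases le_or_gt |x| (31 / 16) with hx | hx
    · have h3 : 1 / 16 ≤ gg0 x := by
        unfold gg0
        rw [tri_eq (by rw [abs_div, abs_two]; linarith), abs_div, abs_two]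
        linarith
      have h4 : g₃ x - h x ≤ 2 * η := by
        simp only [hg3]
        have h5 := (abs_le.mp (hg2 x)).2
        have h6 := hb1 x
        nlinarith
      nlinarith
    · simp only [hg3]
      rw [hg20 x (by linarith), h2 x (by linarith), hbO x hx.le]
      have := gg0_nonneg x
      simp only [mul_zero, add_zero, sub_zero]
      positivity
  have hlim := FF_sub_PS I ng₃
  have hlim' := hlim.eventually (gt_mem_nhds (show (0 : ℝ) < ε / 4 by positivity))
  set ε' := ε / (4 * (M + 1)) with hε'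
  have hε'0 : 0 < ε' := by positivity
  filter_upwards [hmass, hlim', hLB ε' hε'0, eventually_gt_atTop 1] with T hm hl hb hT1
  have e1 : SF γ w F T (cosT g₃) - SF γ w F T (cosT h) ≤ 32 * η * B := by
    rw [SF_cosT_sub hg3i hhi]
    exact (le_abs_self _).trans (hm _ _ (by positivity) (hg3i.sub hhi) hclose)
  have e2 : 32 * η * B ≤ ε / 2 := by
    have : 32 * η * B = (32 / 100 * ε) * (B / (B + 1)) := by
      rw [hη]; field_simp
    rw [this]
    have h5 : B / (B + 1) ≤ 1 := by rw [div_le_one (by positivity)]; linarith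
    have : (32 / 100 * ε) * (B / (B + 1)) ≤ (32 / 100 * ε) * 1 := mul_le_mul_of_nonneg_left h5 (by positivity)
    linarith
  have hF := continuous_FF (γ := γ) (w := w) (F := F) T
  have hcs : HasCompactSupport h := by
    apply HasCompactSupport.intro (K := Icc (-(7 / 4)) (7 / 4)) isCompact_Icc
    intro x hx
    apply h2
    by_contra hcon
    rw [not_le, abs_lt] at hcon
    exact hx ⟨hcon.1.le, hcon.2.le⟩
  have i1 : Integrable (fun x => g₃ x * FF γ w F T x) :=
    (hg3c.mul hF).integrable_of_hasCompactSupport ng₃.hasCompactSupport.mul_right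
  have i2 : Integrable (fun x => max (3 / 2 - |x|) 0 * h x) := by
    apply Continuous.integrable_of_hasCompactSupport (by fun_prop)
    exact hcs.mul_left
  have e3 : (∫ x, max (3 / 2 - |x|) 0 * h x) - ε' * M ≤ ∫ x, g₃ x * FF γ w F T x := by
    rw [hM, ← integral_const_mul, ← integral_sub i2 (hhi.const_mul ε')]
    apply integral_mono (i2.sub (hhi.const_mul ε')) i1
    intro x
    simp only [Pi.sub_apply]
    have hF0 := FF_nonneg (γ := γ) (w := w) (F := F) hT1 x
    rcases le_or_gt |x| 1 with hx | hx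
    · rw [h1 x hx, mul_zero, mul_zero, sub_zero]
      exact mul_nonneg ((hn x).trans (hle x)) hF0
    · have h3 := hb x hx.le
      have h4 : max (3 / 2 - |x|) 0 - ε' ≤ FF γ w F T x := by
        rcases le_or_gt (3 / 2 - |x|) 0 with h5 | h5
        · rw [max_eq_right h5]; linarith
        · rw [max_eq_left h5.le]; linarith
      calc max (3 / 2 - |x|) 0 * h x - ε' * h x = h x * (max (3 / 2 - |x|) 0 - ε') := by ring
        _ ≤ h x * FF γ w F T x := mul_le_mul_of_nonneg_left h4 (hn x)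
        _ ≤ g₃ x * FF γ w F T x := mul_le_mul_of_nonneg_right (hle x) hF0
  have e4 : ε' * M ≤ ε / 4 := by
    have : ε' * M = (ε / 4) * (M / (M + 1)) := by
      rw [hε']; field_simp
    rw [this]
    have h5 : M / (M + 1) ≤ 1 := by rw [div_le_one (by positivity)]; linarith
    have : (ε / 4) * (M / (M + 1)) ≤ (ε / 4) * 1 := mul_le_mul_of_nonneg_left h5 (by positivity)
    linarith
  rw [← SF_eq_PS] at hl
  linarith

lemma integral_even_ge {f : ℝ → ℝ} (hn : ∀ x, 0 ≤ f x) (he : ∀ x, f (-x) = f x) (hi : Integrable f)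
    {a b : ℝ} (ha : 0 ≤ a) (hab : a ≤ b) : 2 * (∫ x in a..b, f x) ≤ ∫ x, f x := by
  have h1 : ∫ x, f x = 2 * ∫ x in Ioi (0 : ℝ), f x := by
    rw [← integral_comp_abs (f := f)]
    congr 1
    ext x
    rcases abs_choice x with h | h <;> rw [h]
    exact (he x).symm
  rw [h1]
  apply mul_le_mul_of_nonneg_left _ (by norm_num)
  rw [intervalIntegral.integral_of_le hab]
  apply setIntegral_mono_set hi.integrableOn
  · exact ae_of_all _ fun x => hn x
  · apply LE.le.eventuallyLE
    intro x hx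
    exact lt_of_le_of_lt ha hx.1

/-- Lower bound for the double sum of `cosT g` when `g ≥ 0` outside `(-1, 1)`, using the lower bound of the form factor. -/
theorem liminf_SF2 [Countable ι] (I : Inputs γ w F CR) (hLB : LBH γ w F) {g : ℝ → ℝ} (hg : Continuous g)
    (he : ∀ x, g (-x) = g x) {A : ℝ} (h0 : ∀ x, A ≤ |x| → g x = 0) (hpos : ∀ x, 1 ≤ |x| → 0 ≤ g x) {ε : ℝ} (hε : 0 < ε) :
    ∀ᶠ T in atTop, g 0 + (∫ x in (-1 : ℝ)..1, |x| * g x) + 2 * (∫ x in (1 : ℝ)..(3 / 2), (3 / 2 - x) * g x) - ε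
      ≤ SF γ w F T (cosT g) := by
  have hgi := integrable_of_supp hg h0
  obtain ⟨K, hK0, hK⟩ : ∃ K : ℝ, 0 < K ∧ ∀ x, |g x| ≤ K := by
    have hc : HasCompactSupport g := by
      apply HasCompactSupport.intro (K := Icc (-A) A) isCompact_Icc
      intro x hx
      apply h0
      by_contra h
      rw [not_le, abs_lt] at h
      exact hx ⟨h.1.le, h.2.le⟩
    obtain ⟨K, hK⟩ := hg.bounded_above_of_compact_support hc
    refine ⟨|K| + 1, by positivity, fun x => ?_⟩
    have := hK x
    rw [Real.norm_eq_abs] at this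
    linarith [le_abs_self K]
  set δ := min (1 / 4) (ε / (4 * (K + 1))) with hδ
  have hδ0 : 0 < δ := lt_min (by norm_num) (by positivity)
  have hδ1 : δ ≤ 1 / 4 := min_le_left _ _
  have hδ2 : δ ≤ ε / (4 * (K + 1)) := min_le_right _ _
  obtain ⟨χ, hχc, hχe, hχ0, hχ1, hχs, hχz⟩ := exists_cutoff (show (0 : ℝ) < 3 / 2 by norm_num) (show (3 / 2 : ℝ) < 7 / 4 by norm_num)
  set ρ : ℝ → ℝ := fun x => min 1 (max 0 ((|x| - 1) / δ)) * χ x with hρ
  have hρc : Continuous ρ := by
    have : Continuous (fun x : ℝ => min 1 (max 0 ((|x| - 1) / δ))) := by fun_prop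
    exact this.mul hχc
  have hr0 : ∀ x : ℝ, 0 ≤ min 1 (max 0 ((|x| - 1) / δ)) := fun x => le_min zero_le_one (le_max_left _ _)
  have hr1 : ∀ x : ℝ, min 1 (max 0 ((|x| - 1) / δ)) ≤ 1 := fun x => min_le_left _ _
  have hρ0 : ∀ x, 0 ≤ ρ x := fun x => mul_nonneg (hr0 x) (hχ0 x)
  have hρ1 : ∀ x, ρ x ≤ 1 := fun x => mul_le_one₀ (hr1 x) (hχ0 x) (hχ1 x)
  have hρe : ∀ x, ρ (-x) = ρ x := fun x => by simp only [hρ, abs_neg, hχe]
  have hρin : ∀ x, |x| ≤ 1 → ρ x = 0 := by
    intro x hx
    simp only [hρ]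
    have : (|x| - 1) / δ ≤ 0 := div_nonpos_of_nonpos_of_nonneg (by linarith) hδ0.le
    rw [max_eq_left this, min_eq_right zero_le_one, zero_mul]
  have hρmid : ∀ x, 1 + δ ≤ |x| → |x| ≤ 3 / 2 → ρ x = 1 := by
    intro x hx hx'
    simp only [hρ]
    rw [hχs x hx', mul_one]
    apply min_eq_left
    apply le_max_of_le_right
    rw [le_div_iff₀ hδ0]
    linarith
  have hρout : ∀ x, 7 / 4 ≤ |x| → ρ x = 0 := by
    intro x hx
    simp only [hρ]
    rw [hχz x hx, mul_zero]
  set h : ℝ → ℝ := fun x => g x * ρ x with hh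
  have hhc : Continuous h := hg.mul hρc
  have hhe : ∀ x, h (-x) = h x := fun x => by simp only [hh, he, hρe]
  have hhn : ∀ x, 0 ≤ h x := by
    intro x
    simp only [hh]
    rcases le_or_gt |x| 1 with hx | hx
    · rw [hρin x hx, mul_zero]
    · exact mul_nonneg (hpos x hx.le) (hρ0 x)
  have hh1 : ∀ x, |x| ≤ 1 → h x = 0 := fun x hx => by simp only [hh, hρin x hx, mul_zero]
  have hh2 : ∀ x, 7 / 4 ≤ |x| → h x = 0 := fun x hx => by simp only [hh, hρout x hx, mul_zero]
  have hhi := integrable_of_supp hhc hh2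
  set g₁ : ℝ → ℝ := fun x => g x - h x with hg1
  have hg1c : Continuous g₁ := hg.sub hhc
  have hg1e : ∀ x, g₁ (-x) = g₁ x := fun x => by simp only [hg1, he, hhe]
  have hg10 : ∀ x, A ≤ |x| → g₁ x = 0 := fun x hx => by simp only [hg1, hh, h0 x hx, zero_mul, sub_zero]
  have hg1p : ∀ x, 1 ≤ |x| → 0 ≤ g₁ x := by
    intro x hx
    simp only [hg1, hh]
    have h1 := hpos x hx
    have h2 := hρ1 x
    nlinarith
  have hin := liminf_SF I hg1c hg1e hg10 hg1p (show 0 < ε / 4 by positivity)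
  have hout := outer_lower I hLB hhc hhe hhn hh1 hh2 (show 0 < ε / 4 by positivity)
  have e0 : g₁ 0 = g 0 := by
    simp only [hg1]
    rw [hh1 0 (by simp), sub_zero]
  have e1 : ∫ x in (-1 : ℝ)..1, |x| * g₁ x = ∫ x in (-1 : ℝ)..1, |x| * g x := by
    apply intervalIntegral.integral_congr
    intro x hx
    rw [uIcc_of_le (by norm_num)] at hx
    simp only [hg1]
    rw [hh1 x (abs_le.mpr hx), sub_zero]
  have e2 : 2 * (∫ x in (1 : ℝ)..(3 / 2), (3 / 2 - x) * h x) ≤ ∫ x, max (3 / 2 - |x|) 0 * h x := by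
    have h1 : ∫ x in (1 : ℝ)..(3 / 2), (3 / 2 - x) * h x = ∫ x in (1 : ℝ)..(3 / 2), max (3 / 2 - |x|) 0 * h x := by
      apply intervalIntegral.integral_congr
      intro x hx
      rw [uIcc_of_le (by norm_num)] at hx
      simp only
      rw [abs_of_nonneg (by linarith [hx.1]), max_eq_left (by linarith [hx.2])]
    rw [h1]
    apply integral_even_ge (f := fun x => max (3 / 2 - |x|) 0 * h x)
    · intro x
      exact mul_nonneg (le_max_right _ _) (hhn x)
    · intro x
      simp only [abs_neg, hhe]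
    · apply integrable_of_supp (s := 7 / 4) (by fun_prop)
      intro x hx
      rw [hh2 x hx, mul_zero]
    · norm_num
    · norm_num
  have e3 : (∫ x in (1 : ℝ)..(3 / 2), (3 / 2 - x) * g x) - (∫ x in (1 : ℝ)..(3 / 2), (3 / 2 - x) * h x) ≤ δ * (K / 2) := by
    have hc1 : ∀ a b : ℝ, IntervalIntegrable (fun x => (3 / 2 - x) * g x) volume a b := fun a b =>
      Continuous.intervalIntegrable (by fun_prop) a b
    have hc2 : ∀ a b : ℝ, IntervalIntegrable (fun x => (3 / 2 - x) * h x) volume a b := fun a b =>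
      Continuous.intervalIntegrable (by fun_prop) a b
    have hc3 : ∀ a b : ℝ, IntervalIntegrable (fun x => (3 / 2 - x) * g x - (3 / 2 - x) * h x) volume a b := fun a b =>
      (hc1 a b).sub (hc2 a b)
    rw [← intervalIntegral.integral_sub (hc1 _ _) (hc2 _ _),
      ← intervalIntegral.integral_add_adjacent_intervals (b := 1 + δ) (hc3 _ _) (hc3 _ _)]
    have h1 : ∫ x in (1 + δ)..(3 / 2), ((3 / 2 - x) * g x - (3 / 2 - x) * h x) = 0 := by
      have : ∫ x in (1 + δ)..(3 / 2), ((3 / 2 - x) * g x - (3 / 2 - x) * h x) = ∫ x in (1 + δ)..(3 / 2), (0 : ℝ) := by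
        apply intervalIntegral.integral_congr
        intro x hx
        rw [uIcc_of_le (by linarith)] at hx
        have hxa : |x| = x := abs_of_nonneg (by linarith [hx.1])
        simp only [hh]
        rw [hρmid x (by rw [hxa]; exact hx.1) (by rw [hxa]; exact hx.2)]
        ring
      rw [this]; simp
    have h2 : ∫ x in (1 : ℝ)..(1 + δ), ((3 / 2 - x) * g x - (3 / 2 - x) * h x) ≤ ∫ x in (1 : ℝ)..(1 + δ), K / 2 := by
      apply intervalIntegral.integral_mono_on (by linarith) (hc3 _ _) (by simp)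
      intro x hx
      have hxa : |x| = x := abs_of_nonneg (by linarith [hx.1])
      have h3 := hpos x (by rw [hxa]; exact hx.1)
      have h4 := hK x
      rw [abs_of_nonneg h3] at h4
      have h5 : 0 ≤ h x := hhn x
      have h6 : g x - h x ≤ K := by linarith
      have h7 : 0 ≤ g x - h x := hg1p x (by rw [hxa]; exact hx.1)
      have h8 := hx.1
      have h9 : x ≤ 3 / 2 := by linarith [hx.2]
      nlinarith
    rw [intervalIntegral.integral_const, smul_eq_mul] at h2
    rw [h1]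
    linarith
  have e4 : δ * K ≤ ε / 4 := by
    have : δ * (4 * (K + 1)) ≤ ε := by rwa [le_div_iff₀ (by positivity)] at hδ2
    nlinarith
  filter_upwards [hin, hout] with T t1 t2
  have e5 := SF_cosT_sub (γ := γ) (w := w) (F := F) hgi hhi T
  have e6 : SF γ w F T (cosT g₁) = SF γ w F T (cosT g) - SF γ w F T (cosT h) := e5.symm
  rw [e0, e1, e6] at t1
  linarith

end

end Pool.Agent.H27.Cor
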