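import Mathlib
import Pool.Agent.H27.Cor.Outer
import Pool.Agent.H27.Cor.Interp
import Pool.Agent.H27.Cor.Base

open MeasureTheory Set Filter Topology
open scoped Real Interval

/-!
# From an integer vector to an upper bound for small windows
-/

namespace Pool.Agent.H27.Cor

open Pool.Agent.H5 Pool.Agent.H6

/-! ### Integer computations -/

/-- autocorrelation of a list of integers -/
def acL (L : List ℤ) (k : ℕ) : ℤ := (List.zipWith (fun a b => a * b) L (L.drop k)).sum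

lemma sum_zipWith (L M : List ℤ) : (List.zipWith (fun a b => a * b) L M).sum
    = ∑ l ∈ Finset.range L.length, L.getD l 0 * M.getD l 0 := by
  induction L generalizing M with
  | nil => simp
  | cons a L ih =>
    cases M with
    | nil => simp
    | cons b M =>
      rw [List.zipWith_cons_cons, List.sum_cons, ih, List.length_cons, Finset.sum_range_succ']
      simp only [List.getD_cons_succ, List.getD_cons_zero]
      ring

lemma acL_eq (L : List ℤ) (k : ℕ) : acL L k = ∑ l ∈ Finset.range L.length, L.getD l 0 * L.getD (l + k) 0 := by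
  unfold acL
  rw [sum_zipWith]
  apply Finset.sum_congr rfl
  intro l _
  congr 1
  rw [List.getD_eq_getElem?_getD, List.getD_eq_getElem?_getD, List.getElem?_drop, add_comm]

/-- the sequence of a list -/
noncomputable def sq' (L : List ℤ) (j : ℕ) : ℝ := ((L.getD j 0 : ℤ) : ℝ)

lemma sq'_zero (L : List ℤ) (j : ℕ) (hj : L.length ≤ j) : sq' L j = 0 := by
  unfold sq'
  rw [List.getD_eq_default _ _ hj]
  simp

lemma AC_sq' (L : List ℤ) (k : ℕ) : AC (sq' L) L.length k = (acL L k : ℝ) := by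
  unfold AC sq'
  rw [acL_eq]
  push_cast
  rfl

lemma sum_sq' (L : List ℤ) : ∑ j ∈ Finset.range L.length, sq' L j = ((L.sum : ℤ) : ℝ) := by
  induction L with
  | nil => simp
  | cons a L ih =>
    rw [List.length_cons, Finset.sum_range_succ', List.sum_cons, Int.cast_add, ← ih, add_comm]
    congr 1

/-- `6 n²` times the value of the functional, `n = 2 p` -/
def jL (L : List ℤ) (n p : ℕ) : ℤ :=
  6 * (n : ℤ) ^ 2 * acL L 0 + 2 * ∑ i ∈ Finset.range n, (acL L i * (3 * (i : ℤ) + 1) + acL L (i + 1) * (3 * (i : ℤ) + 2))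
    + 2 * ∑ i ∈ Finset.Ico n (n + p), (9 * (p : ℤ) * (acL L i + acL L (i + 1))
      - (acL L i * (3 * (i : ℤ) + 1) + acL L (i + 1) * (3 * (i : ℤ) + 2)))

/-! ### The bound -/

lemma integral_abs_even' {f : ℝ → ℝ} (hf : Continuous f) (he : ∀ x, f (-x) = f x) :
    ∫ t in (-1 : ℝ)..1, |t| * f t = 2 * ∫ t in (0 : ℝ)..1, t * f t := by
  have hc : Continuous (fun t => |t| * f t) := by fun_prop
  rw [← intervalIntegral.integral_add_adjacent_intervals (b := 0) (hc.intervalIntegrable _ _) (hc.intervalIntegrable _ _)]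
  have e2 : ∫ t in (-1 : ℝ)..0, |t| * f t = ∫ t in (0 : ℝ)..1, |t| * f t := by
    have := intervalIntegral.integral_comp_neg (a := 0) (b := 1) (fun t => |t| * f t)
    rw [neg_zero] at this
    rw [← this]
    congr 1
    ext t
    rw [he, abs_neg]
  have e3 : ∫ t in (0 : ℝ)..1, |t| * f t = ∫ t in (0 : ℝ)..1, t * f t := by
    apply intervalIntegral.integral_congr
    intro t ht
    rw [uIcc_of_le (by norm_num)] at ht
    simp only
    rw [abs_of_nonneg ht.1]
  rw [e2, e3]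
  ring

section
variable {ι : Type*} {γ w : ι → ℝ} {F : ℝ → Finset ι} {CR : ℝ}

lemma SF_const_mul (T c : ℝ) (f : ℝ → ℝ) : SF γ w F T (fun x => c * f x) = c * SF γ w F T f := by
  unfold SF
  rw [mul_left_comm c]
  congr 1
  rw [Finset.mul_sum]
  apply Finset.sum_congr rfl
  intro i _
  rw [Finset.mul_sum]
  apply Finset.sum_congr rfl
  intro j _
  ring

lemma SF_neg' (T : ℝ) (f : ℝ → ℝ) : SF γ w F T (fun x => -f x) = -SF γ w F T f := by
  have := SF_const_mul (γ := γ) (w := w) (F := F) T (-1) f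
  simpa using this

lemma cosT_neg_fun (f : ℝ → ℝ) : cosT (fun t => -f t) = fun x => -cosT f x := by
  ext x
  unfold cosT
  rw [← integral_neg]
  congr 1
  ext t
  ring

/-- Upper bound for a nonnegative `cosT g` with `g ≤ 0` outside `(-1, 1)`. -/
theorem window_le [Countable ι] (I : Inputs γ w F CR) (hLB : LBH γ w F) {g : ℝ → ℝ} (hg : Continuous g)
    (he : ∀ x, g (-x) = g x) {A : ℝ} (h0 : ∀ x, A ≤ |x| → g x = 0) (hneg : ∀ x, 1 ≤ |x| → g x ≤ 0)
    (hr : ∀ x, 0 ≤ cosT g x) (hr0 : 0 < cosT g 0) {c : ℝ} (hc : 0 < c)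
    (hJ : g 0 + 2 * (∫ x in (0 : ℝ)..1, x * g x) + 2 * (∫ x in (1 : ℝ)..(3 / 2), (3 / 2 - x) * g x) < c * cosT g 0) :
    ∃ b : ℝ, 0 < b ∧ ∀ᶠ T in atTop, PW γ w F T (-b) b ≤ c := by
  set J := g 0 + 2 * (∫ x in (0 : ℝ)..1, x * g x) + 2 * (∫ x in (1 : ℝ)..(3 / 2), (3 / 2 - x) * g x) with hJd
  have hgi := integrable_of_supp hg h0
  have hrc : Continuous (cosT g) := TestFn.continuous_cosT_of_integrable hgi
  set θ := max ((J + c * cosT g 0) / 2) (c * cosT g 0 / 2) with hθ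
  have hcr : 0 < c * cosT g 0 := mul_pos hc hr0
  have hθ0 : 0 < θ := lt_of_lt_of_le (by positivity) (le_max_right _ _)
  have hθ1 : θ < c * cosT g 0 := max_lt (by linarith) (by linarith)
  have hθ2 : (J + c * cosT g 0) / 2 ≤ θ := le_max_left _ _
  have hev : ∀ᶠ x in 𝓝 (0 : ℝ), θ < c * cosT g x := by
    apply ((continuous_const.mul hrc).tendsto 0).eventually
    exact lt_mem_nhds hθ1
  obtain ⟨δ, hδ, hδ'⟩ := Metric.eventually_nhds_iff.mp hev
  refine ⟨δ / 2, by positivity, ?_⟩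
  have hε0 : 0 < θ - J := by linarith
  have h := liminf_SF2 I hLB (g := fun t => -g t) hg.neg (fun x => by rw [he]) (A := A)
    (fun x hx => by rw [h0 x hx, neg_zero]) (fun x hx => by linarith [hneg x hx]) hε0
  filter_upwards [h, eventually_gt_atTop 1] with T hT hT1
  rw [cosT_neg_fun, SF_neg'] at hT
  have e1 : ∫ x in (-1 : ℝ)..1, |x| * -g x = -(2 * ∫ x in (0 : ℝ)..1, x * g x) := by
    rw [← integral_abs_even' hg he, ← intervalIntegral.integral_neg]
    congr 1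
    ext x
    ring
  have e2 : ∫ x in (1 : ℝ)..(3 / 2), (3 / 2 - x) * -g x = -∫ x in (1 : ℝ)..(3 / 2), (3 / 2 - x) * g x := by
    rw [← intervalIntegral.integral_neg]
    congr 1
    ext x
    ring
  rw [e1, e2] at hT
  have h1 : SF γ w F T (cosT g) ≤ θ := by linarith
  have h3 : θ * PW γ w F T (-(δ / 2)) (δ / 2) ≤ c * SF γ w F T (cosT g) := by
    unfold PW
    rw [← SF_const_mul, ← SF_const_mul]
    apply SF_mono I.ord.w_nonneg hT1
    intro x
    split_ifs with hx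
    · rw [mul_one]
      apply (hδ' _).le
      rw [Real.dist_eq, sub_zero, abs_lt]
      constructor <;> linarith [hx.1, hx.2]
    · rw [mul_zero]
      exact mul_nonneg hc.le (hr x)
  have h9 : θ * PW γ w F T (-(δ / 2)) (δ / 2) ≤ θ * c := by
    refine h3.trans ?_
    rw [mul_comm θ c]
    exact mul_le_mul_of_nonneg_left h1 hc.le
  exact le_of_mul_le_mul_left h9 hθ0

/-- The bound from an integer vector. -/
theorem cert [Countable ι] (I : Inputs γ w F CR) (hLB : LBH γ w F) (L : List ℤ) {n p : ℕ} (hp : 0 < p) (hn : n = 2 * p)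
    (hneg : ∀ k, n ≤ k → k < L.length → acL L k ≤ 0) (hS : L.sum ≠ 0) {u v : ℤ} (hu : 0 < u) (hv : 0 < v)
    (hJ : v * jL L n p < u * (6 * n * L.sum ^ 2)) :
    ∃ b : ℝ, 0 < b ∧ ∀ᶠ T in atTop, PW γ w F T (-b) b ≤ (u : ℝ) / v := by
  have hn0 : 0 < n := by omega
  have hn' : (0 : ℝ) < n := by exact_mod_cast hn0
  have hφ : ∀ j, L.length ≤ j → sq' L j = 0 := sq'_zero L
  set g : ℝ → ℝ := rh (sq' L) n L.length with hg
  have hneg' : ∀ k, n ≤ k → AC (sq' L) L.length k ≤ 0 := by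
    intro k hk
    rw [AC_sq']
    rcases lt_or_ge k L.length with h | h
    · exact_mod_cast hneg k hk h
    · have : acL L k = 0 := by
        rw [acL_eq]
        apply Finset.sum_eq_zero
        intro l _
        rw [List.getD_eq_default (l := L) (n := l + k) _ (by omega), mul_zero]
      rw [this]; simp
  have hc0 : cosT g 0 = (1 / n) * ((L.sum : ℤ) : ℝ) ^ 2 := by
    rw [hg, cosT_rh_zero hn0, sum_sq']
  have hS' : ((L.sum : ℤ) : ℝ) ≠ 0 := by exact_mod_cast hS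
  have hu' : (0 : ℝ) < u := by exact_mod_cast hu
  have hv' : (0 : ℝ) < v := by exact_mod_cast hv
  apply window_le I hLB (g := g) (continuous_rh _ _ _) (rh_neg _ _ _) (fun x hx => rh_zero _ _ _ hn0 hx)
    (fun x hx => rh_nonpos hn0 hφ hneg' hx) (fun x => cosT_rh_nonneg hn0 x) (by rw [hc0]; positivity) (by positivity)
  have i1 : ∫ x in (0 : ℝ)..1, x * g x = ∑ i ∈ Finset.range n, ((acL L i : ℝ) * ((i / 2 + 1 / 6) / n ^ 2)
      + (acL L (i + 1) : ℝ) * ((i / 2 + 1 / 3) / n ^ 2)) := by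
    have h := integral_cells hn0 hφ (Nat.zero_le n) 0 1
    rw [Nat.cast_zero, zero_div, div_self hn'.ne', Nat.Ico_zero_eq_range] at h
    have e : ∀ x : ℝ, x * g x = (0 + 1 * x) * rh (sq' L) n L.length x := by intro x; rw [hg]; ring
    simp_rw [e]
    rw [h]
    apply Finset.sum_congr rfl
    intro i _
    rw [AC_sq', AC_sq']
    ring
  have i2 : ∫ x in (1 : ℝ)..(3 / 2), (3 / 2 - x) * g x = ∑ i ∈ Finset.Ico n (n + p),
      ((acL L i : ℝ) * ((3 / 2) / (2 * n) - (i / 2 + 1 / 6) / n ^ 2)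
      + (acL L (i + 1) : ℝ) * ((3 / 2) / (2 * n) - (i / 2 + 1 / 3) / n ^ 2)) := by
    have h := integral_cells hn0 hφ (show n ≤ n + p by omega) (3 / 2) (-1)
    have e1 : ((n + p : ℕ) : ℝ) / n = 3 / 2 := by
      rw [hn]; push_cast
      have : (0 : ℝ) < p := by exact_mod_cast hp
      field_simp
      ring
    rw [div_self hn'.ne', e1] at h
    have e : ∀ x : ℝ, (3 / 2 - x) * g x = (3 / 2 + -1 * x) * rh (sq' L) n L.length x := by intro x; rw [hg]; ring
    simp_rw [e]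
    rw [h]
    apply Finset.sum_congr rfl
    intro i _
    rw [AC_sq', AC_sq']
    ring
  have i0 : g 0 = (acL L 0 : ℝ) := by rw [hg, rh_at_zero hφ, AC_sq']
  rw [i0, i1, i2, hc0]
  have hJ' : (v : ℝ) * (jL L n p : ℝ) < u * (6 * n * ((L.sum : ℤ) : ℝ) ^ 2) := by exact_mod_cast hJ
  have key : (jL L n p : ℝ) = 6 * (n : ℝ) ^ 2 * ((acL L 0 : ℝ) + 2 * (∑ i ∈ Finset.range n, ((acL L i : ℝ) * ((i / 2 + 1 / 6) / n ^ 2)
      + (acL L (i + 1) : ℝ) * ((i / 2 + 1 / 3) / n ^ 2))) + 2 * ∑ i ∈ Finset.Ico n (n + p),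
      ((acL L i : ℝ) * ((3 / 2) / (2 * n) - (i / 2 + 1 / 6) / n ^ 2)
      + (acL L (i + 1) : ℝ) * ((3 / 2) / (2 * n) - (i / 2 + 1 / 3) / n ^ 2))) := by
    have s1 : ∑ i ∈ Finset.range n, ((acL L i : ℝ) * (3 * (i : ℝ) + 1) + (acL L (i + 1) : ℝ) * (3 * (i : ℝ) + 2))
        = 6 * (n : ℝ) ^ 2 * ∑ i ∈ Finset.range n, ((acL L i : ℝ) * ((i / 2 + 1 / 6) / n ^ 2)
          + (acL L (i + 1) : ℝ) * ((i / 2 + 1 / 3) / n ^ 2)) := by
      rw [Finset.mul_sum]
      apply Finset.sum_congr rfl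
      intro i _
      field_simp
      ring
    have s2 : ∑ i ∈ Finset.Ico n (n + p), (9 * (p : ℝ) * ((acL L i : ℝ) + (acL L (i + 1) : ℝ))
        - ((acL L i : ℝ) * (3 * (i : ℝ) + 1) + (acL L (i + 1) : ℝ) * (3 * (i : ℝ) + 2)))
        = 6 * (n : ℝ) ^ 2 * ∑ i ∈ Finset.Ico n (n + p), ((acL L i : ℝ) * ((3 / 2) / (2 * n) - (i / 2 + 1 / 6) / n ^ 2)
          + (acL L (i + 1) : ℝ) * ((3 / 2) / (2 * n) - (i / 2 + 1 / 3) / n ^ 2)) := by
      rw [Finset.mul_sum]
      apply Finset.sum_congr rfl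
      intro i _
      have hnp : (n : ℝ) = 2 * p := by rw [hn]; push_cast; ring
      have : (p : ℝ) = n / 2 := by linarith
      rw [this]
      field_simp
      ring
    unfold jL
    push_cast
    rw [s1, s2]
    ring
  rw [key] at hJ'
  set X := (acL L 0 : ℝ) + 2 * (∑ i ∈ Finset.range n, ((acL L i : ℝ) * ((i / 2 + 1 / 6) / n ^ 2)
      + (acL L (i + 1) : ℝ) * ((i / 2 + 1 / 3) / n ^ 2))) + 2 * ∑ i ∈ Finset.Ico n (n + p),
      ((acL L i : ℝ) * ((3 / 2) / (2 * n) - (i / 2 + 1 / 6) / n ^ 2)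
      + (acL L (i + 1) : ℝ) * ((3 / 2) / (2 * n) - (i / 2 + 1 / 3) / n ^ 2)) with hX
  have h6 : v * X * (6 * (n : ℝ) ^ 2) < (u * ((1 / n) * ((L.sum : ℤ) : ℝ) ^ 2)) * (6 * (n : ℝ) ^ 2) := by
    calc v * X * (6 * (n : ℝ) ^ 2) = v * (6 * (n : ℝ) ^ 2 * X) := by ring
      _ < u * (6 * n * ((L.sum : ℤ) : ℝ) ^ 2) := hJ'
      _ = _ := by field_simp
  have h7 : v * X < u * ((1 / n) * ((L.sum : ℤ) : ℝ) ^ 2) := lt_of_mul_lt_mul_right h6 (by positivity)
  rw [div_mul_eq_mul_div, lt_div_iff₀ hv']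
  linarith

end

end Pool.Agent.H27.Cor
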