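import Pool.Agent.H27.Cor.Outer
import Pool.Agent.H69.LB.Fin
import Pool.Agent.H69.LB.BrgL

/-!
# The lower bound of `Pool/Agent/H69/LB` in the form used here
-/

open Filter Topology
open Pool.Agent Pool.Agent.H6

namespace Pool.Agent.H27.Cor

theorem FFz_eq (T α : ℝ) : H69LB.FFz gZ wZ FZ T α = FF gZ wZ FZ T α := by
  have e : (T * Real.log T)⁻¹ * (2 * Real.pi) = (PC.norm T)⁻¹ := by
    unfold PC.norm
    rw [mul_inv, mul_inv, inv_div]
    ring
  unfold H69LB.FFz FF Wt
  rw [e, one_div]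

theorem lbh (RH : RiemannHypothesis) : LBH gZ wZ FZ := by
  intro ε hε
  filter_upwards [H69LB.main (H69LB.zer RH) ε hε] with T hT α hα
  rw [← FFz_eq]
  exact hT α hα

end Pool.Agent.H27.Cor
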