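import Mathlib
import Pool.Agent.H27.Cor.Interp
import Pool.Agent.H27.Cor.BSp

open MeasureTheory Set Filter Topology
open scoped Real Interval

/-!
# Cubic spline test functions

`sh` is a cubic spline with cosine transform `s x = (1/n) sq(x/n)² |Φ|² ≥ 0`, `sd` is its second derivative, and
`β² sh + sd / (4π²)` has cosine transform `(β² - x²) s x`.
-/

namespace Pool.Agent.H27.Cor

open Pool.Agent.H5 Pool.Agent.H6

section
variable (φ : ℕ → ℝ) (n m : ℕ)

/-- double sum of translates of a kernel -/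
noncomputable def dsum (K : ℝ → ℝ) (t : ℝ) : ℝ :=
  ∑ l ∈ Finset.range m, ∑ j ∈ Finset.range m, φ l * φ j * K (n * t - ((j : ℝ) - l))

/-- spline -/
noncomputable def sh (t : ℝ) : ℝ := dsum φ n m Bs t
/-- its second derivative -/
noncomputable def sd (t : ℝ) : ℝ := (n : ℝ) ^ 2 * dsum φ n m Ds t
/-- autocorrelation at `i - 1` -/
noncomputable def AM (i : ℕ) : ℝ := AC φ m (if i = 0 then 1 else i - 1)

variable {φ n m}

lemma dsum_neg {K : ℝ → ℝ} (hK : ∀ u, K (-u) = K u) (t : ℝ) : dsum φ n m K (-t) = dsum φ n m K t := by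
  unfold dsum
  rw [Finset.sum_comm]
  apply Finset.sum_congr rfl
  intro l _
  apply Finset.sum_congr rfl
  intro j _
  rw [← hK, mul_comm (φ j)]
  congr 2
  ring

lemma continuous_dsum {K : ℝ → ℝ} (hK : Continuous K) : Continuous (dsum φ n m K) := by
  unfold dsum
  fun_prop

lemma dsum_zero {K : ℝ → ℝ} (hK : ∀ u, 2 ≤ |u| → K u = 0) (hn : 0 < n) {t : ℝ} (ht : ((m : ℝ) + 1) / n ≤ |t|) :
    dsum φ n m K t = 0 := by
  unfold dsum
  apply Finset.sum_eq_zero
  intro l hl
  apply Finset.sum_eq_zero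
  intro j hj
  rw [Finset.mem_range] at hl hj
  have hn' : (0 : ℝ) < n := by exact_mod_cast hn
  have h1 : (m : ℝ) + 1 ≤ |(n : ℝ) * t| := by
    rw [abs_mul, abs_of_pos hn']
    rwa [div_le_iff₀' hn'] at ht
  have h2 : |(j : ℝ) - l| ≤ m - 1 := by
    have a1 : (j : ℝ) + 1 ≤ m := by exact_mod_cast hj
    have a2 : (l : ℝ) + 1 ≤ m := by exact_mod_cast hl
    have a3 : (0 : ℝ) ≤ j := by positivity
    have a4 : (0 : ℝ) ≤ l := by positivity
    rw [abs_le]; constructor <;> linarith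
  have h3 := abs_sub_abs_le_abs_sub ((n : ℝ) * t) ((j : ℝ) - l)
  rw [hK _ (by linarith), mul_zero]

lemma tri_sub_add_zero {u : ℝ} (hu : 2 ≤ |u|) : Ds u = 0 := by
  unfold Ds
  have h1 : 1 ≤ |u - 1| := by
    have := abs_sub_abs_le_abs_sub u 1
    rw [abs_one] at this; linarith
  have h2 : 1 ≤ |u + 1| := by
    have := abs_sub_abs_le_abs_sub u (-1)
    rw [abs_neg, abs_one, sub_neg_eq_add] at this; linarith
  rw [tri_eq_zero h1, tri_eq_zero h2, tri_eq_zero (by linarith)]
  ring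

lemma Ds_neg (u : ℝ) : Ds (-u) = Ds u := by
  unfold Ds
  rw [show -u - 1 = -(u + 1) by ring, show -u + 1 = -(u - 1) by ring, tri_even, tri_even, tri_even]
  ring

lemma continuous_Ds : Continuous Ds := by
  unfold Ds
  have := continuous_tri
  fun_prop

lemma integrable_shift {K : ℝ → ℝ} (hK : Integrable K) (hn : 0 < n) (c : ℝ) : Integrable (fun t : ℝ => K (n * t - c)) := by
  have hn' : (0 : ℝ) < n := by exact_mod_cast hn
  have h2 : Integrable (fun t : ℝ => K (t - c)) := hK.comp_sub_right c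
  exact h2.comp_mul_left' hn'.ne'

/-- The cosine transform of a translate. -/
lemma integral_shift_cos {K : ℝ → ℝ} (hK : Integrable K) (he : ∀ u, K (-u) = K u) (hn : 0 < n) (c x : ℝ) :
    ∫ t, K (n * t - c) * Real.cos (2 * π * t * x) = Real.cos (2 * π * c * (x / n)) * ((1 / n) * cosT K (x / n)) := by
  have hn' : (0 : ℝ) < n := by exact_mod_cast hn
  have h0 := Measure.integral_comp_mul_left (fun u : ℝ => K (u - c) * Real.cos (2 * π * u * (x / n))) (n : ℝ)
  have h1 : ∀ t : ℝ, K (n * t - c) * Real.cos (2 * π * t * x)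
      = K ((n : ℝ) * t - c) * Real.cos (2 * π * ((n : ℝ) * t) * (x / n)) := by
    intro t
    congr 2
    field_simp
  simp_rw [h1]
  rw [h0, abs_of_pos (by positivity), smul_eq_mul]
  rw [← integral_add_right_eq_self (fun u => K (u - c) * Real.cos (2 * π * u * (x / n))) c]
  have h2 : ∀ t, K (t + c - c) * Real.cos (2 * π * (t + c) * (x / n))
      = Real.cos (2 * π * c * (x / n)) * (K t * Real.cos (2 * π * t * (x / n)))
        - Real.sin (2 * π * c * (x / n)) * (K t * Real.sin (2 * π * t * (x / n))) := by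
    intro t
    rw [add_sub_cancel_right, show 2 * π * (t + c) * (x / n) = 2 * π * t * (x / n) + 2 * π * c * (x / n) by ring, Real.cos_add]
    ring
  simp_rw [h2]
  have hs : Integrable (fun t => K t * Real.sin (2 * π * t * (x / n))) := by
    apply Integrable.mul_bdd (c := 1) hK
    · apply Continuous.aestronglyMeasurable; fun_prop
    · exact ae_of_all _ fun u => by rw [Real.norm_eq_abs]; exact Real.abs_sin_le_one _
  rw [integral_sub ((integrable_mul_cos hK _).const_mul _) (hs.const_mul _), integral_const_mul, integral_const_mul]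
  have h3 : ∫ t, K t * Real.sin (2 * π * t * (x / n)) = 0 := by
    have h := integral_neg_eq_self (fun t => K t * Real.sin (2 * π * t * (x / n))) volume
    have h1 : ∀ t : ℝ, K (-t) * Real.sin (2 * π * -t * (x / n)) = -(K t * Real.sin (2 * π * t * (x / n))) := by
      intro t
      rw [he, show 2 * π * -t * (x / n) = -(2 * π * t * (x / n)) by ring, Real.sin_neg]
      ring
    simp_rw [h1] at h
    rw [integral_neg] at h
    linarith
  rw [h3]
  unfold cosT
  ring

/-- The square of the exponential sum. -/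
noncomputable def Phi2 (φ : ℕ → ℝ) (m : ℕ) (y : ℝ) : ℝ :=
  (∑ j ∈ Finset.range m, φ j * Real.cos (2 * π * j * y)) ^ 2 + (∑ j ∈ Finset.range m, φ j * Real.sin (2 * π * j * y)) ^ 2

lemma Phi2_nonneg (y : ℝ) : 0 ≤ Phi2 φ m y := by unfold Phi2; positivity

lemma cosT_dsum {K : ℝ → ℝ} (hK : Integrable K) (he : ∀ u, K (-u) = K u) (hn : 0 < n) (x : ℝ) :
    cosT (dsum φ n m K) x = (1 / n) * cosT K (x / n) * Phi2 φ m (x / n) := by
  rw [cosT]
  unfold dsum
  have h1 : ∀ t : ℝ, (∑ l ∈ Finset.range m, ∑ j ∈ Finset.range m, φ l * φ j * K (n * t - ((j : ℝ) - l))) * Real.cos (2 * π * t * x)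
      = ∑ l ∈ Finset.range m, ∑ j ∈ Finset.range m, φ l * φ j * (K (n * t - ((j : ℝ) - l)) * Real.cos (2 * π * t * x)) := by
    intro t
    rw [Finset.sum_mul]
    apply Finset.sum_congr rfl
    intro l _
    rw [Finset.sum_mul]
    apply Finset.sum_congr rfl
    intro j _
    ring
  have hi : ∀ c : ℝ, Integrable (fun t => K (n * t - c) * Real.cos (2 * π * t * x)) := fun c =>
    integrable_mul_cos (integrable_shift hK hn c) x
  simp_rw [h1]
  rw [integral_finsetSum _ (fun l _ => integrable_finsetSum _ fun j _ => (hi _).const_mul _)]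
  unfold Phi2
  rw [pow_two (∑ j ∈ Finset.range m, φ j * Real.cos (2 * π * j * (x / n))),
    pow_two (∑ j ∈ Finset.range m, φ j * Real.sin (2 * π * j * (x / n))), Finset.sum_mul_sum, Finset.sum_mul_sum,
    ← Finset.sum_add_distrib, Finset.mul_sum]
  apply Finset.sum_congr rfl
  intro l _
  rw [integral_finsetSum _ (fun j _ => (hi _).const_mul _), ← Finset.sum_add_distrib, Finset.mul_sum]
  apply Finset.sum_congr rfl
  intro j _
  rw [integral_const_mul, integral_shift_cos hK he hn, show 2 * π * ((j : ℝ) - l) * (x / n) = 2 * π * j * (x / n) - 2 * π * l * (x / n) by ring,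
    Real.cos_sub]
  ring

lemma integrable_Ds : Integrable Ds := by
  apply continuous_Ds.integrable_of_hasCompactSupport
  apply HasCompactSupport.intro (K := Icc (-2) 2) isCompact_Icc
  intro x hx
  apply tri_sub_add_zero
  by_contra h
  rw [not_le, abs_lt] at h
  exact hx ⟨h.1.le, h.2.le⟩

lemma cosT_Ds (x : ℝ) : cosT Ds x = -(2 * π * x) ^ 2 * H5.sq x ^ 2 := by
  have h1 := integral_shift_cos (n := 1) integrable_tri tri_even (by norm_num) 1 x
  have h2 := integral_shift_cos (n := 1) integrable_tri tri_even (by norm_num) (-1) x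
  simp only [Nat.cast_one, one_mul, div_one] at h1 h2
  rw [cosT_tri'] at h1 h2
  have h0 := cosT_tri x
  unfold cosT Ds
  unfold cosT at h0
  have e : ∀ t : ℝ, (tri (t - 1) - 2 * tri t + tri (t + 1)) * Real.cos (2 * π * t * x)
      = tri (t - 1) * Real.cos (2 * π * t * x) - 2 * (tri t * Real.cos (2 * π * t * x)) + tri (t - -1) * Real.cos (2 * π * t * x) := by
    intro t
    rw [sub_neg_eq_add]
    ring
  simp_rw [e]
  have i1 : ∀ c : ℝ, Integrable (fun t => tri (t - c) * Real.cos (2 * π * t * x)) := fun c =>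
    integrable_mul_cos (integrable_tri.comp_sub_right c) x
  have i0 := integrable_mul_cos integrable_tri x
  have i2 : Integrable (fun t => tri (t - 1) * Real.cos (2 * π * t * x) - 2 * (tri t * Real.cos (2 * π * t * x))) :=
    (i1 1).sub (i0.const_mul 2)
  rw [integral_add i2 (i1 (-1)), integral_sub (i1 1) (i0.const_mul 2), integral_const_mul, h1, h2, h0]
  have h3 : Real.cos (2 * π * -1 * x) = Real.cos (2 * π * 1 * x) := by
    rw [← Real.cos_neg]; congr 1; ring
  rw [h3]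
  have h4 : (Real.sinc (π * x)) ^ 2 = H5.sq x := rfl
  rw [h4]
  have h5 := H5.sq_mul x
  have h6 : Real.cos (2 * π * 1 * x) = 1 - 2 * Real.sin (π * x) ^ 2 := by
    rw [show 2 * π * 1 * x = 2 * (π * x) by ring, Real.cos_two_mul, Real.cos_sq']
    ring
  rw [h6]
  have hpi := Real.pi_pos
  rw [eq_div_iff (by positivity)] at h5
  rw [← h5]
  ring

lemma cosT_Ds_at (x : ℝ) (hn : 0 < n) : cosT (sd φ n m) x = -(4 * π ^ 2) * x ^ 2 * ((1 / n) * H5.sq (x / n) ^ 2 * Phi2 φ m (x / n)) := by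
  have hn' : (0 : ℝ) < n := by exact_mod_cast hn
  have e : cosT (sd φ n m) x = (n : ℝ) ^ 2 * cosT (dsum φ n m Ds) x := by
    unfold cosT sd
    rw [← integral_const_mul]
    congr 1
    ext t
    ring
  rw [e, cosT_dsum integrable_Ds Ds_neg hn, cosT_Ds]
  field_simp
  ring

lemma cosT_sh (x : ℝ) (hn : 0 < n) : cosT (sh φ n m) x = (1 / n) * H5.sq (x / n) ^ 2 * Phi2 φ m (x / n) := by
  have e : cosT (sh φ n m) x = cosT (dsum φ n m Bs) x := rfl
  rw [e, cosT_dsum integrable_Bs Bs_neg hn, cosT_Bs]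

/-! ### Values on the cells -/

lemma Sd_eq (hφ : ∀ j, m ≤ j → φ j = 0) (d : ℕ) :
    ∑ l ∈ Finset.range m, ∑ j ∈ Finset.range m, φ l * φ j * (if (j : ℤ) - l = d then (1 : ℝ) else 0) = AC φ m d := by
  unfold AC
  apply Finset.sum_congr rfl
  intro l _
  have key : ∀ j : ℕ, φ l * φ j * (if (j : ℤ) - l = d then (1 : ℝ) else 0) = if j = l + d then φ l * φ j else 0 := by
    intro j
    by_cases h : j = l + d
    · rw [if_pos h, if_pos (by omega), mul_one]
    · rw [if_neg h, if_neg (by omega), mul_zero]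
  simp_rw [key]
  rw [Finset.sum_ite_eq']
  split_ifs with h
  · rfl
  · rw [Finset.mem_range, not_lt] at h
    rw [hφ _ h]; ring

lemma Sd_eq' (hφ : ∀ j, m ≤ j → φ j = 0) (i : ℕ) :
    ∑ l ∈ Finset.range m, ∑ j ∈ Finset.range m, φ l * φ j * (if (j : ℤ) - l = (i : ℤ) - 1 then (1 : ℝ) else 0) = AM φ m i := by
  unfold AM
  rcases Nat.eq_zero_or_pos i with rfl | hi
  · rw [if_pos rfl, ← Sd_eq hφ, Finset.sum_comm]
    apply Finset.sum_congr rfl
    intro l _
    apply Finset.sum_congr rfl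
    intro j _
    rw [mul_comm (φ j)]
    congr 1
    by_cases h : (j : ℤ) - l = 1
    · rw [if_pos (by omega), if_pos (by exact_mod_cast h)]
    · rw [if_neg (by omega), if_neg (by exact_mod_cast h)]
  · rw [if_neg hi.ne', ← Sd_eq hφ]
    apply Finset.sum_congr rfl
    intro l _
    apply Finset.sum_congr rfl
    intro j _
    congr 1
    have : ((i - 1 : ℕ) : ℤ) = (i : ℤ) - 1 := by omega
    rw [this]

lemma dsum_cell {K : ℝ → ℝ} (hK : ∀ u, 2 ≤ |u| → K u = 0) (hφ : ∀ j, m ≤ j → φ j = 0) (i : ℕ) {t : ℝ}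
    (h1 : (i : ℝ) ≤ n * t) (h2 : n * t ≤ i + 1) :
    dsum φ n m K t = AM φ m i * K (n * t - i + 1) + AC φ m i * K (n * t - i) + AC φ m (i + 1) * K (n * t - i - 1)
      + AC φ m (i + 2) * K (n * t - i - 2) := by
  have key : ∀ l j : ℕ, φ l * φ j * K (n * t - ((j : ℝ) - l))
      = φ l * φ j * (if (j : ℤ) - l = (i : ℤ) - 1 then (1 : ℝ) else 0) * K (n * t - i + 1)
      + φ l * φ j * (if (j : ℤ) - l = (i : ℕ) then (1 : ℝ) else 0) * K (n * t - i)
      + φ l * φ j * (if (j : ℤ) - l = ((i + 1 : ℕ) : ℤ) then (1 : ℝ) else 0) * K (n * t - i - 1)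
      + φ l * φ j * (if (j : ℤ) - l = ((i + 2 : ℕ) : ℤ) then (1 : ℝ) else 0) * K (n * t - i - 2) := by
    intro l j
    have cast : ∀ d : ℤ, (j : ℤ) - l = d → (j : ℝ) - l = d := by
      intro d hd
      exact_mod_cast congrArg (Int.cast : ℤ → ℝ) hd
    by_cases c0 : (j : ℤ) - l = (i : ℤ) - 1
    · rw [if_pos c0, if_neg (by omega), if_neg (by omega), if_neg (by omega), cast _ c0]
      push_cast
      rw [show (n : ℝ) * t - ((i : ℝ) - 1) = n * t - i + 1 by ring]
      ring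
    by_cases c1 : (j : ℤ) - l = i
    · rw [if_neg c0, if_pos c1, if_neg (by omega), if_neg (by omega), cast _ c1]
      push_cast
      ring
    by_cases c2 : (j : ℤ) - l = ((i + 1 : ℕ) : ℤ)
    · rw [if_neg c0, if_neg c1, if_pos c2, if_neg (by omega), cast _ c2]
      push_cast
      rw [show (n : ℝ) * t - ((i : ℝ) + 1) = n * t - i - 1 by ring]
      ring
    by_cases c3 : (j : ℤ) - l = ((i + 2 : ℕ) : ℤ)
    · rw [if_neg c0, if_neg c1, if_neg c2, if_pos c3, cast _ c3]
      push_cast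
      rw [show (n : ℝ) * t - ((i : ℝ) + 2) = n * t - i - 2 by ring]
      ring
    rw [if_neg c0, if_neg c1, if_neg c2, if_neg c3, hK]
    · ring
    · rcases lt_or_ge ((j : ℤ) - l) i with h | h
      · have h3 : (j : ℤ) - l ≤ i - 2 := by omega
        have h4 : (j : ℝ) - l ≤ i - 2 := by exact_mod_cast h3
        rw [abs_of_nonneg (by linarith)]
        linarith
      · have h3 : (i : ℤ) + 3 ≤ (j : ℤ) - l := by push_cast at c2 c3; omega
        have h4 : (i : ℝ) + 3 ≤ (j : ℝ) - l := by exact_mod_cast h3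
        rw [abs_of_nonpos (by linarith)]
        linarith
  unfold dsum
  simp_rw [key]
  rw [← Sd_eq' hφ, ← Sd_eq hφ i, ← Sd_eq hφ (i + 1), ← Sd_eq hφ (i + 2)]
  simp_rw [Finset.sum_mul, ← Finset.sum_add_distrib]

lemma sh_cell (hφ : ∀ j, m ≤ j → φ j = 0) (i : ℕ) {t : ℝ} (h1 : (i : ℝ) ≤ n * t) (h2 : n * t ≤ i + 1) :
    sh φ n m t = (AM φ m i * (1 - (n * t - i)) ^ 3 + AC φ m i * (4 - 6 * (n * t - i) ^ 2 + 3 * (n * t - i) ^ 3)
      + AC φ m (i + 1) * (1 + 3 * (n * t - i) + 3 * (n * t - i) ^ 2 - 3 * (n * t - i) ^ 3) + AC φ m (i + 2) * (n * t - i) ^ 3) / 6 := by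
  unfold sh
  rw [dsum_cell (fun u hu => Bs_eq_zero hu) hφ i h1 h2]
  have a0 : 0 ≤ n * t - i := by linarith
  have a1 : n * t - i ≤ 1 := by linarith
  rw [Bs_cell0 a0 a1, Bs_cell1 a0 a1, Bs_cell2 a0 a1, Bs_cell3 a0 a1]
  ring

lemma Ds_cell0 {v : ℝ} (h0 : 0 ≤ v) (h1 : v ≤ 1) : Ds (v + 1) = 1 - v := by
  unfold Ds
  rw [add_sub_cancel_right, tri_eq (x := v) (by rw [abs_le]; constructor <;> linarith), abs_of_nonneg h0,
    tri_eq_zero (x := v + 1) (by rw [abs_of_nonneg (by linarith)]; linarith),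
    tri_eq_zero (x := v + 1 + 1) (by rw [abs_of_nonneg (by linarith)]; linarith)]
  ring

lemma Ds_cell1 {v : ℝ} (h0 : 0 ≤ v) (h1 : v ≤ 1) : Ds v = 3 * v - 2 := by
  unfold Ds
  rw [tri_eq (x := v) (by rw [abs_le]; constructor <;> linarith), abs_of_nonneg h0,
    tri_eq (x := v - 1) (by rw [abs_le]; constructor <;> linarith), abs_of_nonpos (by linarith),
    tri_eq_zero (x := v + 1) (by rw [abs_of_nonneg (by linarith)]; linarith)]
  ring

lemma Ds_cell2 {v : ℝ} (h0 : 0 ≤ v) (h1 : v ≤ 1) : Ds (v - 1) = 1 - 3 * v := by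
  rw [← Ds_neg, show -(v - 1) = 1 - v by ring, Ds_cell1 (by linarith) (by linarith)]
  ring

lemma Ds_cell3 {v : ℝ} (h0 : 0 ≤ v) (h1 : v ≤ 1) : Ds (v - 2) = v := by
  rw [← Ds_neg, show -(v - 2) = (1 - v) + 1 by ring, Ds_cell0 (by linarith) (by linarith)]
  ring

lemma sd_cell (hφ : ∀ j, m ≤ j → φ j = 0) (i : ℕ) {t : ℝ} (h1 : (i : ℝ) ≤ n * t) (h2 : n * t ≤ i + 1) :
    sd φ n m t = (n : ℝ) ^ 2 * ((1 - (n * t - i)) * (AM φ m i - 2 * AC φ m i + AC φ m (i + 1))
      + (n * t - i) * (AC φ m i - 2 * AC φ m (i + 1) + AC φ m (i + 2))) := by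
  unfold sd
  rw [dsum_cell (fun u hu => tri_sub_add_zero hu) hφ i h1 h2]
  have a0 : 0 ≤ n * t - i := by linarith
  have a1 : n * t - i ≤ 1 := by linarith
  rw [Ds_cell0 a0 a1, Ds_cell1 a0 a1, Ds_cell2 a0 a1, Ds_cell3 a0 a1]
  ring

end

end Pool.Agent.H27.Cor
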