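import Mathlib
import Pool.Agent.H27.Cor.Spl
import Pool.Agent.H27.Cor.Cert

open MeasureTheory Set Filter Topology
open scoped Real Interval

/-!
# Lower bound for small windows from a cubic spline
-/

namespace Pool.Agent.H27.Cor

open Pool.Agent.H5 Pool.Agent.H6

section
variable {φ : ℕ → ℝ} {n m : ℕ}

/-- the test function on the frequency side -/
noncomputable def gs (φ : ℕ → ℝ) (n m : ℕ) (B q t : ℝ) : ℝ := B * sh φ n m t + q * sd φ n m t

/-- Nonnegativity on a cell from four Bernstein coefficients. -/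
lemma gs_cell_nonneg (hφ : ∀ j, m ≤ j → φ j = 0) (B q : ℝ) (i : ℕ)
    (c0 : 0 ≤ B * (AM φ m i + 4 * AC φ m i + AC φ m (i + 1)) + 2 * (n : ℝ) ^ 2 * q * (3 * (AM φ m i - 2 * AC φ m i + AC φ m (i + 1))))
    (c1 : 0 ≤ B * (4 * AC φ m i + 2 * AC φ m (i + 1)) + 2 * (n : ℝ) ^ 2 * q * (2 * (AM φ m i - 2 * AC φ m i + AC φ m (i + 1))
      + (AC φ m i - 2 * AC φ m (i + 1) + AC φ m (i + 2))))
    (c2 : 0 ≤ B * (2 * AC φ m i + 4 * AC φ m (i + 1)) + 2 * (n : ℝ) ^ 2 * q * ((AM φ m i - 2 * AC φ m i + AC φ m (i + 1))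
      + 2 * (AC φ m i - 2 * AC φ m (i + 1) + AC φ m (i + 2))))
    (c3 : 0 ≤ B * (AC φ m i + 4 * AC φ m (i + 1) + AC φ m (i + 2)) + 2 * (n : ℝ) ^ 2 * q * (3 * (AC φ m i - 2 * AC φ m (i + 1) + AC φ m (i + 2))))
    {t : ℝ} (h1 : (i : ℝ) ≤ n * t) (h2 : n * t ≤ i + 1) : 0 ≤ gs φ n m B q t := by
  unfold gs
  rw [sh_cell hφ i h1 h2, sd_cell hφ i h1 h2]
  set v := n * t - i with hv
  have v0 : 0 ≤ v := by linarith
  have v1 : 0 ≤ 1 - v := by linarith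
  set a := AM φ m i
  set b := AC φ m i
  set c := AC φ m (i + 1)
  set d := AC φ m (i + 2)
  have e : B * ((a * (1 - v) ^ 3 + b * (4 - 6 * v ^ 2 + 3 * v ^ 3) + c * (1 + 3 * v + 3 * v ^ 2 - 3 * v ^ 3) + d * v ^ 3) / 6)
      + q * ((n : ℝ) ^ 2 * ((1 - v) * (a - 2 * b + c) + v * (b - 2 * c + d)))
      = ((1 - v) ^ 3 * (B * (a + 4 * b + c) + 2 * (n : ℝ) ^ 2 * q * (3 * (a - 2 * b + c)))
        + 3 * (v * (1 - v) ^ 2) * (B * (4 * b + 2 * c) + 2 * (n : ℝ) ^ 2 * q * (2 * (a - 2 * b + c) + (b - 2 * c + d)))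
        + 3 * (v ^ 2 * (1 - v)) * (B * (2 * b + 4 * c) + 2 * (n : ℝ) ^ 2 * q * ((a - 2 * b + c) + 2 * (b - 2 * c + d)))
        + v ^ 3 * (B * (b + 4 * c + d) + 2 * (n : ℝ) ^ 2 * q * (3 * (b - 2 * c + d)))) / 6 := by ring
  rw [e]
  positivity

lemma gs_neg (B q t : ℝ) : gs φ n m B q (-t) = gs φ n m B q t := by
  unfold gs sh sd
  rw [dsum_neg Bs_neg, dsum_neg Ds_neg]

lemma continuous_gs (B q : ℝ) : Continuous (gs φ n m B q) := by
  unfold gs sh sd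
  have h1 := continuous_dsum (φ := φ) (n := n) (m := m) continuous_Bs
  have h2 := continuous_dsum (φ := φ) (n := n) (m := m) continuous_Ds
  fun_prop

lemma gs_zero (hn : 0 < n) (B q : ℝ) {t : ℝ} (ht : ((m : ℝ) + 1) / n ≤ |t|) : gs φ n m B q t = 0 := by
  unfold gs sh sd
  rw [dsum_zero (fun u hu => Bs_eq_zero hu) hn ht, dsum_zero (fun u hu => tri_sub_add_zero hu) hn ht]
  ring

lemma integrable_dsum {K : ℝ → ℝ} (hK : Continuous K) (h0 : ∀ u, 2 ≤ |u| → K u = 0) (hn : 0 < n) :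
    Integrable (dsum φ n m K) :=
  integrable_of_supp (continuous_dsum hK) (fun _ hx => dsum_zero h0 hn hx)

/-- The transform side: `(β² - x²) s x`. -/
lemma cosT_gs (hn : 0 < n) (B x : ℝ) : cosT (gs φ n m B (1 / (4 * π ^ 2))) x
    = (B - x ^ 2) * ((1 / n) * H5.sq (x / n) ^ 2 * Phi2 φ m (x / n)) := by
  have hpi := Real.pi_pos
  have i1 : Integrable (fun t => B * sh φ n m t) := (integrable_dsum continuous_Bs (fun u hu => Bs_eq_zero hu) hn).const_mul B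
  have i2 : Integrable (fun t => 1 / (4 * π ^ 2) * sd φ n m t) :=
    ((integrable_dsum continuous_Ds (fun u hu => tri_sub_add_zero hu) hn).const_mul _).const_mul _
  have e1 : cosT (gs φ n m B (1 / (4 * π ^ 2))) x = cosT (fun t => B * sh φ n m t) x + cosT (fun t => 1 / (4 * π ^ 2) * sd φ n m t) x :=
    cosT_add i1 i2 x
  have e2 : cosT (fun t => B * sh φ n m t) x = B * cosT (sh φ n m) x := by
    unfold cosT
    rw [← integral_const_mul]
    congr 1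
    ext t
    ring
  have e3 : cosT (fun t => 1 / (4 * π ^ 2) * sd φ n m t) x = 1 / (4 * π ^ 2) * cosT (sd φ n m) x := by
    unfold cosT
    rw [← integral_const_mul]
    congr 1
    ext t
    ring
  rw [e1, e2, e3, cosT_sh x hn, cosT_Ds_at x hn]
  field_simp
  ring

/-! ### Integrals -/

lemma hasDerivAt_pow_lin (N : ℝ) (i : ℝ) (k : ℕ) (t : ℝ) :
    HasDerivAt (fun t : ℝ => (N * t - i) ^ (k + 1)) (((k : ℝ) + 1) * (N * t - i) ^ k * N) t := by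
  have h1 : HasDerivAt (fun t : ℝ => N * t - i) N t := by
    simpa using ((hasDerivAt_id t).const_mul N).sub_const i
  have h2 := h1.pow (k + 1)
  refine h2.congr_deriv ?_
  push_cast
  simp

/-- Integral of a linear weight times a cubic polynomial over a cell. -/
lemma integral_cubic (hn : 0 < n) (i : ℕ) (α β c0 c1 c2 c3 : ℝ) :
    ∫ t in ((i : ℝ) / n)..(((i + 1 : ℕ) : ℝ) / n), (α + β * t) * (c0 + c1 * (n * t - i) + c2 * (n * t - i) ^ 2 + c3 * (n * t - i) ^ 3)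
      = α / n * (c0 + c1 / 2 + c2 / 3 + c3 / 4)
        + β / (n : ℝ) ^ 2 * (i * (c0 + c1 / 2 + c2 / 3 + c3 / 4) + (c0 / 2 + c1 / 3 + c2 / 4 + c3 / 5)) := by
  have hn' : (0 : ℝ) < n := by exact_mod_cast hn
  have h2 : ∀ t ∈ uIcc ((i : ℝ) / n) (((i + 1 : ℕ) : ℝ) / n), HasDerivAt
      (fun t : ℝ => (α / n + β * i / (n : ℝ) ^ 2) * (c0 * (n * t - i) ^ (0 + 1) + c1 / 2 * (n * t - i) ^ (1 + 1) + c2 / 3 * (n * t - i) ^ (2 + 1)
          + c3 / 4 * (n * t - i) ^ (3 + 1))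
        + β / (n : ℝ) ^ 2 * (c0 / 2 * (n * t - i) ^ (1 + 1) + c1 / 3 * (n * t - i) ^ (2 + 1) + c2 / 4 * (n * t - i) ^ (3 + 1)
          + c3 / 5 * (n * t - i) ^ (4 + 1)))
      ((α + β * t) * (c0 + c1 * (n * t - i) + c2 * (n * t - i) ^ 2 + c3 * (n * t - i) ^ 3)) t := by
    intro t _
    have d0 := hasDerivAt_pow_lin (n : ℝ) i 0 t
    have d1 := hasDerivAt_pow_lin (n : ℝ) i 1 t
    have d2 := hasDerivAt_pow_lin (n : ℝ) i 2 t
    have d3 := hasDerivAt_pow_lin (n : ℝ) i 3 t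
    have d4 := hasDerivAt_pow_lin (n : ℝ) i 4 t
    have e1 := (((d0.const_mul c0).add (d1.const_mul (c1 / 2))).add (d2.const_mul (c2 / 3))).add (d3.const_mul (c3 / 4))
    have e2 := (((d1.const_mul (c0 / 2)).add (d2.const_mul (c1 / 3))).add (d3.const_mul (c2 / 4))).add (d4.const_mul (c3 / 5))
    have e3 := (e1.const_mul (α / n + β * i / (n : ℝ) ^ 2)).add (e2.const_mul (β / (n : ℝ) ^ 2))
    refine e3.congr_deriv ?_
    push_cast
    field_simp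
    ring
  rw [intervalIntegral.integral_eq_sub_of_hasDerivAt h2 (by apply Continuous.intervalIntegrable; fun_prop)]
  have a1 : (n : ℝ) * ((i : ℝ) / n) - i = 0 := by field_simp; ring
  have a2 : (n : ℝ) * (((i + 1 : ℕ) : ℝ) / n) - i = 1 := by push_cast; field_simp; ring
  rw [a1, a2]
  field_simp
  ring

lemma cell_le (hn : 0 < n) (i : ℕ) : (i : ℝ) / n ≤ ((i + 1 : ℕ) : ℝ) / n := by
  have hn' : (0 : ℝ) < n := by exact_mod_cast hn
  apply div_le_div_of_nonneg_right _ hn'.le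
  push_cast; linarith

lemma cell_mem (hn : 0 < n) {i : ℕ} {t : ℝ} (ht : t ∈ uIcc ((i : ℝ) / n) (((i + 1 : ℕ) : ℝ) / n)) :
    (i : ℝ) ≤ n * t ∧ n * t ≤ i + 1 := by
  have hn' : (0 : ℝ) < n := by exact_mod_cast hn
  rw [uIcc_of_le (cell_le hn i)] at ht
  constructor
  · have := ht.1
    rwa [div_le_iff₀' hn'] at this
  · have := ht.2
    rw [le_div_iff₀' hn'] at this
    push_cast at this
    exact this

/-- the numerator polynomials -/
noncomputable def TT (φ : ℕ → ℝ) (m i : ℕ) : ℝ := AM φ m i * (5 * i + 1) + AC φ m i * (55 * i + 22) + AC φ m (i + 1) * (55 * i + 33)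
  + AC φ m (i + 2) * (5 * i + 4)
noncomputable def UU (φ : ℕ → ℝ) (m i : ℕ) : ℝ := AM φ m i + 11 * AC φ m i + 11 * AC φ m (i + 1) + AC φ m (i + 2)
noncomputable def D0 (φ : ℕ → ℝ) (m i : ℕ) : ℝ := AM φ m i - 2 * AC φ m i + AC φ m (i + 1)
noncomputable def D1 (φ : ℕ → ℝ) (m i : ℕ) : ℝ := AC φ m i - 2 * AC φ m (i + 1) + AC φ m (i + 2)
noncomputable def RR (φ : ℕ → ℝ) (m i : ℕ) : ℝ := D0 φ m i * (3 * i + 1) + D1 φ m i * (3 * i + 2)

lemma int_sh_cell (hn : 0 < n) (hφ : ∀ j, m ≤ j → φ j = 0) (i : ℕ) (α β : ℝ) :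
    ∫ t in ((i : ℝ) / n)..(((i + 1 : ℕ) : ℝ) / n), (α + β * t) * sh φ n m t
      = α / n * UU φ m i / 24 + β / (n : ℝ) ^ 2 * TT φ m i / 120 := by
  have h1 : ∫ t in ((i : ℝ) / n)..(((i + 1 : ℕ) : ℝ) / n), (α + β * t) * sh φ n m t
      = ∫ t in ((i : ℝ) / n)..(((i + 1 : ℕ) : ℝ) / n), (α + β * t) * ((AM φ m i + 4 * AC φ m i + AC φ m (i + 1)) / 6
        + ((-3 * AM φ m i + 3 * AC φ m (i + 1)) / 6) * (n * t - i) + ((3 * AM φ m i - 6 * AC φ m i + 3 * AC φ m (i + 1)) / 6) * (n * t - i) ^ 2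
        + ((-AM φ m i + 3 * AC φ m i - 3 * AC φ m (i + 1) + AC φ m (i + 2)) / 6) * (n * t - i) ^ 3) := by
    apply intervalIntegral.integral_congr
    intro t ht
    obtain ⟨b1, b2⟩ := cell_mem hn ht
    simp only
    rw [sh_cell hφ i b1 b2]
    ring
  rw [h1, integral_cubic hn]
  unfold UU TT
  ring

lemma int_sd_cell (hn : 0 < n) (hφ : ∀ j, m ≤ j → φ j = 0) (i : ℕ) (α β : ℝ) :
    ∫ t in ((i : ℝ) / n)..(((i + 1 : ℕ) : ℝ) / n), (α + β * t) * sd φ n m t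
      = (n : ℝ) ^ 2 * (α / n * (D0 φ m i + D1 φ m i) / 2 + β / (n : ℝ) ^ 2 * RR φ m i / 6) := by
  have h1 : ∫ t in ((i : ℝ) / n)..(((i + 1 : ℕ) : ℝ) / n), (α + β * t) * sd φ n m t
      = ∫ t in ((i : ℝ) / n)..(((i + 1 : ℕ) : ℝ) / n), (α + β * t) * ((n : ℝ) ^ 2 * D0 φ m i
        + ((n : ℝ) ^ 2 * (D1 φ m i - D0 φ m i)) * (n * t - i) + 0 * (n * t - i) ^ 2 + 0 * (n * t - i) ^ 3) := by
    apply intervalIntegral.integral_congr
    intro t ht
    obtain ⟨b1, b2⟩ := cell_mem hn ht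
    simp only
    rw [sd_cell hφ i b1 b2]
    unfold D0 D1
    ring
  rw [h1, integral_cubic hn]
  unfold RR
  ring

lemma int_cells {f : ℝ → ℝ} (hf : Continuous f) {p q : ℕ} (hpq : p ≤ q) (α β : ℝ) {V : ℕ → ℝ}
    (h : ∀ i : ℕ, ∫ t in ((i : ℝ) / n)..(((i + 1 : ℕ) : ℝ) / n), (α + β * t) * f t = V i) :
    ∫ t in ((p : ℝ) / n)..((q : ℝ) / n), (α + β * t) * f t = ∑ i ∈ Finset.Ico p q, V i := by
  rw [← intervalIntegral.sum_integral_adjacent_intervals_Ico (a := fun i : ℕ => (i : ℝ) / n) hpq]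
  · apply Finset.sum_congr rfl
    intro i _
    exact h i
  · intro i _
    apply Continuous.intervalIntegrable
    fun_prop

end

end Pool.Agent.H27.Cor
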