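import Mathlib
import Pool.Agent.H27.Cor.Spl2

open MeasureTheory Set Filter Topology
open scoped Real Interval

/-!
# Lower bound for small windows: final step and integer certificate
-/

namespace Pool.Agent.H27.Cor

open Pool.Agent.H5 Pool.Agent.H6

section
variable {ι : Type*} {γ w : ι → ℝ} {F : ℝ → Finset ι} {CR : ℝ}

/-- More than the trivial number of pairs in a small window. -/
theorem window_ge [Countable ι] (I : Inputs γ w F CR) (hw1 : ∀ i, 1 ≤ w i) (hLB : LBH γ w F) {g : ℝ → ℝ} (hg : Continuous g)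
    (he : ∀ x, g (-x) = g x) {A : ℝ} (h0 : ∀ x, A ≤ |x| → g x = 0) (hpos : ∀ x, 1 ≤ |x| → 0 ≤ g x) {b : ℝ} (hb : 0 ≤ b)
    (hr : ∀ x, b < |x| → cosT g x ≤ 0) (hr0 : 0 ≤ cosT g 0)
    (hX : cosT g 0 < g 0 + 2 * (∫ x in (0 : ℝ)..1, x * g x) + 2 * (∫ x in (1 : ℝ)..(3 / 2), (3 / 2 - x) * g x)) :
    ∃ c : ℝ, 0 < c ∧ ∀ᶠ T in atTop, 1 + c ≤ PW γ w F T (-b) b := by
  set X := g 0 + 2 * (∫ x in (0 : ℝ)..1, x * g x) + 2 * (∫ x in (1 : ℝ)..(3 / 2), (3 / 2 - x) * g x) with hXd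
  set r0 := cosT g 0 with hr0d
  have hgi := integrable_of_supp hg h0
  set K := (∫ x, |g x|) + 1 with hK
  have hi0 : 0 ≤ ∫ x, |g x| := integral_nonneg fun x => abs_nonneg _
  have hK0 : 0 < K := by rw [hK]; linarith
  have hrK : ∀ x, cosT g x ≤ K := by
    intro x
    have h1 : |cosT g x| ≤ ∫ u, |g u| := by
      unfold cosT
      refine abs_integral_le_integral_abs.trans ?_
      apply integral_mono (integrable_mul_cos hgi x).abs hgi.abs
      intro u
      simp only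
      rw [abs_mul]
      exact mul_le_of_le_one_right (abs_nonneg _) (Real.abs_cos_le_one _)
    have := le_abs_self (cosT g x)
    linarith
  have hr0K : r0 ≤ K := hrK 0
  set η := X - r0 with hη
  have hη0 : 0 < η := by rw [hη]; linarith
  refine ⟨η / (2 * K), by positivity, ?_⟩
  have hS := liminf_SF2 I hLB hg he h0 hpos (show 0 < η / 4 by positivity)
  have hcount := I.count.eventually (lt_mem_nhds (show 1 - η / (4 * K) < 1 by
    have : 0 < η / (4 * K) := by positivity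
    linarith))
  filter_upwards [hS, hcount, eventually_gt_atTop 1] with T h1 h2 hT1
  rw [integral_abs_even' hg he] at h1
  have h1' : X - η / 4 ≤ SF γ w F T (cosT g) := by rw [hXd]; linarith
  set D := MM γ w F T 0 with hD
  set P := MM γ w F T b with hP
  have hDP : D ≤ P := MM_mono I.ord.w_nonneg hT1 hb
  have h3 : 1 - η / (4 * K) ≤ D := h2.le.trans (MM_zero_ge hw1 hT1)
  have h4 : SF γ w F T (cosT g) ≤ r0 * D + K * (P - D) := by
    have e1 : r0 * D + K * (P - D) = SF γ w F T (fun x => (r0 - K) * (if |x| ≤ 0 then 1 else 0) + K * (if |x| ≤ b then 1 else 0)) := by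
      have e2 := SF_add (γ := γ) (w := w) (F := F) T (fun x => (r0 - K) * (if |x| ≤ 0 then 1 else 0)) (fun x => K * (if |x| ≤ b then 1 else 0))
      rw [e2, SF_const_mul, SF_const_mul, hD, hP, MM_eq_SF, MM_eq_SF]
      ring
    rw [e1]
    apply SF_mono I.ord.w_nonneg hT1
    intro x
    rcases le_or_gt |x| 0 with hx | hx
    · rw [if_pos hx, if_pos (hx.trans hb)]
      have hx0 : x = 0 := abs_eq_zero.mp (le_antisymm hx (abs_nonneg x))
      rw [hx0]
      linarith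
    · rw [if_neg (not_le.mpr hx)]
      rcases le_or_gt |x| b with hx' | hx'
      · rw [if_pos hx']
        linarith [hrK x]
      · rw [if_neg (not_le.mpr hx')]
        linarith [hr x hx']
  have h5 : (K - r0) * (1 - η / (4 * K)) ≤ (K - r0) * D := mul_le_mul_of_nonneg_left h3 (by linarith)
  have h6 : (K - r0) * (η / (4 * K)) ≤ η / 4 := by
    have : (K - r0) * (η / (4 * K)) ≤ K * (η / (4 * K)) := mul_le_mul_of_nonneg_right (by linarith) (by positivity)
    refine this.trans (le_of_eq ?_)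
    field_simp
  have h7 : K + η / 2 ≤ K * P := by
    have : X = η + r0 := by rw [hη]; ring
    nlinarith
  rw [PW_symm_eq_MM]
  have h8 : K * (1 + η / (2 * K)) ≤ K * P := by
    have : K * (1 + η / (2 * K)) = K + η / 2 := by field_simp
    rw [this]; exact h7
  exact le_of_mul_le_mul_left h8 hK0

end

/-! ### Integer side -/

def am (L : List ℤ) (i : ℕ) : ℤ := acL L (if i = 0 then 1 else i - 1)
def d0 (L : List ℤ) (i : ℕ) : ℤ := am L i - 2 * acL L i + acL L (i + 1)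
def d1 (L : List ℤ) (i : ℕ) : ℤ := acL L i - 2 * acL L (i + 1) + acL L (i + 2)
def tt (L : List ℤ) (i : ℕ) : ℤ := am L i * (5 * i + 1) + acL L i * (55 * i + 22) + acL L (i + 1) * (55 * i + 33)
  + acL L (i + 2) * (5 * i + 4)
def uu (L : List ℤ) (i : ℕ) : ℤ := am L i + 11 * acL L i + 11 * acL L (i + 1) + acL L (i + 2)
def rr (L : List ℤ) (i : ℕ) : ℤ := d0 L i * (3 * i + 1) + d1 L i * (3 * i + 2)

def PT (L : List ℤ) (n p : ℕ) : ℤ := 10 * (n : ℤ) ^ 2 * (4 * acL L 0 + 2 * acL L 1) + ∑ i ∈ Finset.range n, tt L i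
  + ∑ i ∈ Finset.Ico n (n + p), (15 * (p : ℤ) * uu L i - tt L i) - 60 * (n : ℤ) * L.sum ^ 2
def QT (L : List ℤ) (n p : ℕ) : ℤ := 3 * (n : ℤ) ^ 2 * d0 L 0 + ∑ i ∈ Finset.range n, rr L i
  + ∑ i ∈ Finset.Ico n (n + p), (9 * (p : ℤ) * (d0 L i + d1 L i) - rr L i)

/-- the four Bernstein coefficients on the cell `i` are nonnegative, with `β² = bn / bd` and `q = qn / qd` -/
def cellOK (L : List ℤ) (n : ℕ) (bn bd qn qd : ℤ) (i : ℕ) : Prop :=
  0 ≤ bn * qd * (am L i + 4 * acL L i + acL L (i + 1)) + 2 * (n : ℤ) ^ 2 * qn * bd * (3 * d0 L i) ∧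
  0 ≤ bn * qd * (4 * acL L i + 2 * acL L (i + 1)) + 2 * (n : ℤ) ^ 2 * qn * bd * (2 * d0 L i + d1 L i) ∧
  0 ≤ bn * qd * (2 * acL L i + 4 * acL L (i + 1)) + 2 * (n : ℤ) ^ 2 * qn * bd * (d0 L i + 2 * d1 L i) ∧
  0 ≤ bn * qd * (acL L i + 4 * acL L (i + 1) + acL L (i + 2)) + 2 * (n : ℤ) ^ 2 * qn * bd * (3 * d1 L i)

instance (L : List ℤ) (n : ℕ) (bn bd qn qd : ℤ) (i : ℕ) : Decidable (cellOK L n bn bd qn qd i) := by
  unfold cellOK; infer_instance

section
variable (L : List ℤ)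

lemma AM_sq' (i : ℕ) : AM (sq' L) L.length i = (am L i : ℝ) := by
  unfold AM am
  rw [AC_sq']

lemma D0_sq' (i : ℕ) : D0 (sq' L) L.length i = (d0 L i : ℝ) := by
  unfold D0 d0
  rw [AM_sq', AC_sq', AC_sq']
  push_cast; ring

lemma D1_sq' (i : ℕ) : D1 (sq' L) L.length i = (d1 L i : ℝ) := by
  unfold D1 d1
  rw [AC_sq', AC_sq', AC_sq']
  push_cast; ring

lemma TT_sq' (i : ℕ) : TT (sq' L) L.length i = (tt L i : ℝ) := by
  unfold TT tt
  rw [AM_sq', AC_sq', AC_sq', AC_sq']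
  push_cast; ring

lemma UU_sq' (i : ℕ) : UU (sq' L) L.length i = (uu L i : ℝ) := by
  unfold UU uu
  rw [AM_sq', AC_sq', AC_sq', AC_sq']
  push_cast; ring

lemma RR_sq' (i : ℕ) : RR (sq' L) L.length i = (rr L i : ℝ) := by
  unfold RR rr
  rw [D0_sq', D1_sq']
  push_cast; ring

lemma interp_nonneg {a b q q1 q2 : ℝ} (h1 : q1 ≤ q) (h2 : q ≤ q2) (e1 : 0 ≤ a + q1 * b) (e2 : 0 ≤ a + q2 * b) : 0 ≤ a + q * b := by
  rcases le_total 0 b with h | h
  · have := mul_le_mul_of_nonneg_right h1 h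
    linarith
  · have := mul_le_mul_of_nonpos_right h2 h
    linarith

lemma interp_pos {a b q q1 q2 : ℝ} (h1 : q1 ≤ q) (h2 : q ≤ q2) (e1 : 0 < a + q1 * b) (e2 : 0 < a + q2 * b) : 0 < a + q * b := by
  rcases le_total 0 b with h | h
  · have := mul_le_mul_of_nonneg_right h1 h
    linarith
  · have := mul_le_mul_of_nonpos_right h2 h
    linarith

end

section
variable {ι : Type*} {γ w : ι → ℝ} {F : ℝ → Finset ι} {CR : ℝ}

theorem certLow [Countable ι] (I : Inputs γ w F CR) (hw1 : ∀ i, 1 ≤ w i) (hLB : LBH γ w F) (L : List ℤ) {n p : ℕ} (hp : 0 < p)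
    (hn : n = 2 * p) {u v qa qb qd : ℤ} (hu : 0 < u) (hv : 0 < v) (hqd : 0 < qd)
    (hq1 : (qa : ℝ) / qd ≤ 1 / (4 * π ^ 2)) (hq2 : 1 / (4 * π ^ 2) ≤ (qb : ℝ) / qd)
    (hc : ∀ i, n ≤ i → i ≤ L.length → cellOK L n (u ^ 2) (v ^ 2) qa qd i ∧ cellOK L n (u ^ 2) (v ^ 2) qb qd i)
    (hX1 : 0 < u ^ 2 * qd * PT L n p + 20 * (n : ℤ) ^ 2 * qa * v ^ 2 * QT L n p)
    (hX2 : 0 < u ^ 2 * qd * PT L n p + 20 * (n : ℤ) ^ 2 * qb * v ^ 2 * QT L n p) :
    ∃ c : ℝ, 0 < c ∧ ∀ᶠ T in atTop, 1 + c ≤ PW γ w F T (-((u : ℝ) / v)) ((u : ℝ) / v) := by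
  have hn0 : 0 < n := by omega
  have hn' : (0 : ℝ) < n := by exact_mod_cast hn0
  have hu' : (0 : ℝ) < u := by exact_mod_cast hu
  have hv' : (0 : ℝ) < v := by exact_mod_cast hv
  have hqd' : (0 : ℝ) < qd := by exact_mod_cast hqd
  have hφ : ∀ j, L.length ≤ j → sq' L j = 0 := sq'_zero L
  set m := L.length with hm
  set φ := sq' L with hφd
  set q : ℝ := 1 / (4 * π ^ 2) with hq
  set B : ℝ := ((u : ℝ) / v) ^ 2 with hB
  have hB0 : 0 < B := by rw [hB]; positivity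
  -- nonnegativity outside
  have hcell : ∀ i, n ≤ i → ∀ t : ℝ, (i : ℝ) ≤ n * t → n * t ≤ i + 1 → 0 ≤ gs φ n m B q t := by
    intro i hi t h1 h2
    rcases le_or_gt i m with him | him
    · obtain ⟨⟨a0, a1, a2, a3⟩, ⟨b0, b1, b2, b3⟩⟩ := hc i hi him
      have conv : ∀ (P Q : ℤ), 0 ≤ u ^ 2 * qd * P + 2 * (n : ℤ) ^ 2 * qa * v ^ 2 * Q → 0 ≤ u ^ 2 * qd * P + 2 * (n : ℤ) ^ 2 * qb * v ^ 2 * Q →
          0 ≤ B * (P : ℝ) + 2 * (n : ℝ) ^ 2 * q * (Q : ℝ) := by
        intro P Q hP hQ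
        have hP' : (0 : ℝ) ≤ (u : ℝ) ^ 2 * qd * P + 2 * (n : ℝ) ^ 2 * qa * (v : ℝ) ^ 2 * Q := by exact_mod_cast hP
        have hQ' : (0 : ℝ) ≤ (u : ℝ) ^ 2 * qd * P + 2 * (n : ℝ) ^ 2 * qb * (v : ℝ) ^ 2 * Q := by exact_mod_cast hQ
        have e1 : 0 ≤ B * (P : ℝ) + (qa / qd : ℝ) * (2 * (n : ℝ) ^ 2 * (Q : ℝ)) := by
          have : B * (P : ℝ) + (qa / qd : ℝ) * (2 * (n : ℝ) ^ 2 * (Q : ℝ))
              = ((u : ℝ) ^ 2 * qd * P + 2 * (n : ℝ) ^ 2 * qa * (v : ℝ) ^ 2 * Q) / ((v : ℝ) ^ 2 * qd) := by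
            rw [hB]; field_simp
          rw [this]; positivity
        have e2 : 0 ≤ B * (P : ℝ) + (qb / qd : ℝ) * (2 * (n : ℝ) ^ 2 * (Q : ℝ)) := by
          have : B * (P : ℝ) + (qb / qd : ℝ) * (2 * (n : ℝ) ^ 2 * (Q : ℝ))
              = ((u : ℝ) ^ 2 * qd * P + 2 * (n : ℝ) ^ 2 * qb * (v : ℝ) ^ 2 * Q) / ((v : ℝ) ^ 2 * qd) := by
            rw [hB]; field_simp
          rw [this]; positivity
        have := interp_nonneg hq1 hq2 e1 e2
        linarith
      apply gs_cell_nonneg hφ B q i _ _ _ _ h1 h2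
      · have := conv _ _ a0 b0
        rw [hφd, hm, AM_sq', AC_sq', AC_sq']
        unfold d0 at this
        push_cast at this
        exact this
      · have := conv _ _ a1 b1
        rw [hφd, hm, AM_sq', AC_sq', AC_sq', AC_sq']
        unfold d0 d1 at this
        push_cast at this
        exact this
      · have := conv _ _ a2 b2
        rw [hφd, hm, AM_sq', AC_sq', AC_sq', AC_sq']
        unfold d0 d1 at this
        push_cast at this
        exact this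
      · have := conv _ _ a3 b3
        rw [hφd, hm, AC_sq', AC_sq', AC_sq']
        unfold d1 at this
        push_cast at this
        exact this
    · rw [gs_zero hn0]
      rw [div_le_iff₀' hn']
      have h3 : (m : ℝ) + 1 ≤ i := by exact_mod_cast him
      have : n * t ≤ n * |t| := mul_le_mul_of_nonneg_left (le_abs_self t) hn'.le
      linarith
  have hpos : ∀ t : ℝ, 1 ≤ |t| → 0 ≤ gs φ n m B q t := by
    have key : ∀ t : ℝ, 1 ≤ t → 0 ≤ gs φ n m B q t := by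
      intro t ht
      have h0 : 0 ≤ (n : ℝ) * t := by positivity
      apply hcell ⌊(n : ℝ) * t⌋₊ _ t (Nat.floor_le h0) (Nat.lt_floor_add_one _).le
      apply Nat.le_floor
      nlinarith
    intro t ht
    rcases abs_choice t with h | h
    · exact key t (by rwa [h] at ht)
    · rw [← gs_neg]
      exact key (-t) (by rwa [h] at ht)
  have hr : ∀ x, cosT (gs φ n m B q) x = (B - x ^ 2) * ((1 / n) * H5.sq (x / n) ^ 2 * Phi2 φ m (x / n)) := fun x => cosT_gs hn0 B x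
  have hs : ∀ x : ℝ, 0 ≤ (1 / (n : ℝ)) * H5.sq (x / n) ^ 2 * Phi2 φ m (x / n) := fun x => by
    have := Phi2_nonneg (φ := φ) (m := m) (x / n)
    positivity
  have hsum : ∑ j ∈ Finset.range m, φ j = ((L.sum : ℤ) : ℝ) := sum_sq' L
  have hr00 : cosT (gs φ n m B q) 0 = B * ((1 / n) * ((L.sum : ℤ) : ℝ) ^ 2) := by
    rw [hr, zero_div, H5.sq_zero]
    have : Phi2 φ m 0 = ((L.sum : ℤ) : ℝ) ^ 2 := by
      unfold Phi2
      simp [← hsum]
    rw [this]
    ring
  have hgc := continuous_gs (φ := φ) (n := n) (m := m) B q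
  have hub : 0 < (u : ℝ) / v := by positivity
  apply window_ge I hw1 hLB hgc (gs_neg B q) (A := ((m : ℝ) + 1) / n) (fun x hx => gs_zero hn0 B q hx) hpos hub.le
  · intro x hx
    rw [hr]
    apply mul_nonpos_of_nonpos_of_nonneg _ (hs x)
    have : ((u : ℝ) / v) ^ 2 ≤ |x| ^ 2 := by gcongr
    rw [sq_abs] at this
    rw [hB]; linarith
  · rw [hr00]; positivity
  · -- the value
    have hshc : Continuous (sh φ n m) := continuous_dsum continuous_Bs
    have hsdc : Continuous (sd φ n m) := by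
      unfold sd
      exact continuous_const.mul (continuous_dsum continuous_Ds)
    have split : ∀ (a b α β : ℝ), ∫ t in a..b, (α + β * t) * gs φ n m B q t
        = B * (∫ t in a..b, (α + β * t) * sh φ n m t) + q * ∫ t in a..b, (α + β * t) * sd φ n m t := by
      intro a b α β
      rw [← intervalIntegral.integral_const_mul, ← intervalIntegral.integral_const_mul, ← intervalIntegral.integral_add]
      · congr 1
        ext t
        unfold gs
        ring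
      · apply Continuous.intervalIntegrable; fun_prop
      · apply Continuous.intervalIntegrable; fun_prop
    have hmid : ((n + p : ℕ) : ℝ) / n = 3 / 2 := by
      rw [hn]; push_cast
      have : (0 : ℝ) < p := by exact_mod_cast hp
      field_simp
      ring
    have i1 : ∫ t in (0 : ℝ)..1, (0 + 1 * t) * sh φ n m t = ∑ i ∈ Finset.range n, (tt L i : ℝ) / (120 * (n : ℝ) ^ 2) := by
      have h := int_cells (n := n) hshc (Nat.zero_le n) 0 1 (fun i => int_sh_cell hn0 hφ i 0 1)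
      rw [Nat.cast_zero, zero_div, div_self hn'.ne', Nat.Ico_zero_eq_range] at h
      rw [h]
      apply Finset.sum_congr rfl
      intro i _
      rw [hφd, hm, TT_sq']
      field_simp
      ring
    have i2 : ∫ t in (1 : ℝ)..(3 / 2), (3 / 2 + -1 * t) * sh φ n m t
        = ∑ i ∈ Finset.Ico n (n + p), (15 * (p : ℝ) * (uu L i : ℝ) - (tt L i : ℝ)) / (120 * (n : ℝ) ^ 2) := by
      have h := int_cells (n := n) hshc (show n ≤ n + p by omega) (3 / 2) (-1) (fun i => int_sh_cell hn0 hφ i (3 / 2) (-1))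
      rw [div_self hn'.ne', hmid] at h
      rw [h]
      apply Finset.sum_congr rfl
      intro i _
      rw [hφd, hm, TT_sq', UU_sq']
      have hnp : (n : ℝ) = 2 * p := by rw [hn]; push_cast; ring
      have : (p : ℝ) = n / 2 := by linarith
      rw [this]
      field_simp
      ring
    have i3 : ∫ t in (0 : ℝ)..1, (0 + 1 * t) * sd φ n m t = ∑ i ∈ Finset.range n, (rr L i : ℝ) / 6 := by
      have h := int_cells (n := n) hsdc (Nat.zero_le n) 0 1 (fun i => int_sd_cell hn0 hφ i 0 1)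
      rw [Nat.cast_zero, zero_div, div_self hn'.ne', Nat.Ico_zero_eq_range] at h
      rw [h]
      apply Finset.sum_congr rfl
      intro i _
      rw [hφd, hm, RR_sq']
      field_simp
      ring
    have i4 : ∫ t in (1 : ℝ)..(3 / 2), (3 / 2 + -1 * t) * sd φ n m t
        = ∑ i ∈ Finset.Ico n (n + p), (9 * (p : ℝ) * ((d0 L i : ℝ) + (d1 L i : ℝ)) - (rr L i : ℝ)) / 6 := by
      have h := int_cells (n := n) hsdc (show n ≤ n + p by omega) (3 / 2) (-1) (fun i => int_sd_cell hn0 hφ i (3 / 2) (-1))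
      rw [div_self hn'.ne', hmid] at h
      rw [h]
      apply Finset.sum_congr rfl
      intro i _
      rw [hφd, hm, RR_sq', D0_sq', D1_sq']
      have hnp : (n : ℝ) = 2 * p := by rw [hn]; push_cast; ring
      have : (p : ℝ) = n / 2 := by linarith
      rw [this]
      field_simp
      ring
    have e1 : ∫ x in (0 : ℝ)..1, x * gs φ n m B q x = ∫ t in (0 : ℝ)..1, (0 + 1 * t) * gs φ n m B q t := by
      congr 1; ext t; ring
    have e2 : ∫ x in (1 : ℝ)..(3 / 2), (3 / 2 - x) * gs φ n m B q x = ∫ t in (1 : ℝ)..(3 / 2), (3 / 2 + -1 * t) * gs φ n m B q t := by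
      congr 1; ext t; ring
    have g0 : gs φ n m B q 0 = B * ((4 * (acL L 0 : ℝ) + 2 * (acL L 1 : ℝ)) / 6) + q * ((n : ℝ) ^ 2 * (d0 L 0 : ℝ)) := by
      unfold gs
      rw [sh_cell hφ 0 (by simp) (by simp), sd_cell hφ 0 (by simp) (by simp), hφd, hm, AM_sq', AC_sq', AC_sq', AC_sq']
      unfold d0 am
      push_cast
      ring
    rw [hr00, g0, e1, e2, split, split, i1, i2, i3, i4]
    have hX1' : (0 : ℝ) < (u : ℝ) ^ 2 * qd * PT L n p + 20 * (n : ℝ) ^ 2 * qa * (v : ℝ) ^ 2 * QT L n p := by exact_mod_cast hX1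
    have hX2' : (0 : ℝ) < (u : ℝ) ^ 2 * qd * PT L n p + 20 * (n : ℝ) ^ 2 * qb * (v : ℝ) ^ 2 * QT L n p := by exact_mod_cast hX2
    have f1 : 0 < B * (PT L n p : ℝ) + (qa / qd : ℝ) * (20 * (n : ℝ) ^ 2 * (QT L n p : ℝ)) := by
      have : B * (PT L n p : ℝ) + (qa / qd : ℝ) * (20 * (n : ℝ) ^ 2 * (QT L n p : ℝ))
          = ((u : ℝ) ^ 2 * qd * PT L n p + 20 * (n : ℝ) ^ 2 * qa * (v : ℝ) ^ 2 * QT L n p) / ((v : ℝ) ^ 2 * qd) := by
        rw [hB]; field_simp
      rw [this]; positivity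
    have f2 : 0 < B * (PT L n p : ℝ) + (qb / qd : ℝ) * (20 * (n : ℝ) ^ 2 * (QT L n p : ℝ)) := by
      have : B * (PT L n p : ℝ) + (qb / qd : ℝ) * (20 * (n : ℝ) ^ 2 * (QT L n p : ℝ))
          = ((u : ℝ) ^ 2 * qd * PT L n p + 20 * (n : ℝ) ^ 2 * qb * (v : ℝ) ^ 2 * QT L n p) / ((v : ℝ) ^ 2 * qd) := by
        rw [hB]; field_simp
      rw [this]; positivity
    have f3 := interp_pos hq1 hq2 f1 f2
    have hPT : (PT L n p : ℝ) = 60 * (n : ℝ) ^ 2 * ((4 * (acL L 0 : ℝ) + 2 * (acL L 1 : ℝ)) / 6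
        + 2 * (∑ i ∈ Finset.range n, (tt L i : ℝ) / (120 * (n : ℝ) ^ 2))
        + 2 * (∑ i ∈ Finset.Ico n (n + p), (15 * (p : ℝ) * (uu L i : ℝ) - (tt L i : ℝ)) / (120 * (n : ℝ) ^ 2))
        - (1 / n) * ((L.sum : ℤ) : ℝ) ^ 2) := by
      unfold PT
      push_cast
      rw [← Finset.sum_div, ← Finset.sum_div]
      field_simp
      ring
    have hQT : (QT L n p : ℝ) = 3 * ((n : ℝ) ^ 2 * (d0 L 0 : ℝ) + 2 * (∑ i ∈ Finset.range n, (rr L i : ℝ) / 6)
        + 2 * ∑ i ∈ Finset.Ico n (n + p), (9 * (p : ℝ) * ((d0 L i : ℝ) + (d1 L i : ℝ)) - (rr L i : ℝ)) / 6) := by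
      unfold QT
      push_cast
      rw [← Finset.sum_div, ← Finset.sum_div]
      ring
    rw [hPT, hQT] at f3
    set S1 := ∑ i ∈ Finset.range n, (tt L i : ℝ) / (120 * (n : ℝ) ^ 2)
    set S2 := ∑ i ∈ Finset.Ico n (n + p), (15 * (p : ℝ) * (uu L i : ℝ) - (tt L i : ℝ)) / (120 * (n : ℝ) ^ 2)
    set S3 := ∑ i ∈ Finset.range n, (rr L i : ℝ) / 6
    set S4 := ∑ i ∈ Finset.Ico n (n + p), (9 * (p : ℝ) * ((d0 L i : ℝ) + (d1 L i : ℝ)) - (rr L i : ℝ)) / 6
    set Z := B * ((4 * (acL L 0 : ℝ) + 2 * (acL L 1 : ℝ)) / 6 + 2 * S1 + 2 * S2 - (1 / n) * ((L.sum : ℤ) : ℝ) ^ 2)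
      + q * ((n : ℝ) ^ 2 * (d0 L 0 : ℝ) + 2 * S3 + 2 * S4) with hZ
    have f4 : 0 < 60 * (n : ℝ) ^ 2 * Z := by
      rw [hZ]
      refine lt_of_lt_of_eq f3 ?_
      ring
    have f5 : 0 < Z := by
      by_contra hcon
      push Not at hcon
      have : 60 * (n : ℝ) ^ 2 * Z ≤ 0 := mul_nonpos_of_nonneg_of_nonpos (by positivity) hcon
      linarith
    rw [hZ] at f5
    linarith

end

end Pool.Agent.H27.Cor
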