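import Mathlib
import Pool.Agent.H27.Cor.Cert

/-!
# The integer vector for the constant `1.3155`
-/

namespace Pool.Agent.H27.Cor

/-- values of the step function -/
def LL : List ℤ := [
  8672, 10740, 14263, 18265, 22613, 26964, 31211, 35500, 39936, 44503, 49396, 54743, 60463, 66765, 73391, 79826,
  86087, 92664, 99180, 105239, 111248, 117162, 122849, 127749, 132451, 136616, 140642, 144514, 148358, 151666,
  154311, 156533, 158154, 159177, 159397, 158798, 157583, 155628, 153487, 151293, 149918, 148423, 147728, 146603,
  145330, 144116, 142866, 141571, 140199, 138686, 137138, 135569, 134011, 132402, 130847, 129375, 127928, 126408,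
  125099, 123838, 115305, 112194, 108526, 104357, 99608, 94796, 90350, 85954, 81571, 77235, 72820, 68191, 62793,
  56856, 50643, 44443, 38235, 31544, 24613, 18091, 11785, 5640, -123, -5329, -9726, -13357, -16795, -19905, -22764,
  -24947, -26232, -27124, -27378, -27060, -25997, -24241, -21966, -18857, -15425, -11925, -10859, -9614, -8968,
  -8169, -7057, -6003, -4969, -3900, -2682, -1408, -155, 1028, 2133, 3136, 3917, 4451, 4888, 5075, 4712, 4021, 4726,
  3970, 2866, 1893, 1416, 1196, 601, -37, -860, -1981, -3403, -5103, -5709, -5940, -5912, -5547, -4720, -3342, -1614,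
  225, 1521, 2475, 2946, 3997, 3896, 3517, 3345, 3191, 2935, 2520, 1912, 1355, 780, 260, -151, -420, -598, -977,
  -1774, -2750, -1263, 139, 255, 251, 31, -182, -220, -233, -355, -524, -616, -683, -724, -759, -714, -648, -720,
  -910, -1157, -1496, -1088, -834, -399, 48, 337, 379, 558, 697, 910, 1231, 1686, 2262, 2136, 1831, 1500, 1008, 293,
  -596, -1386, -2209, -2424, -2149, -1468, -1548, -894, -302, -32, 54, 257, 499, 689, 848, 1032, 1150, 1146, 970,
  636, 213, 121, 168, -720, -1608, -1007, -297, -12, 2, 17, 7, 6, 3, -2, -3, -4, 1, 14, 15, 31, 40, 27, -116]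

lemma LL_length : LL.length = 240 := by decide +kernel

lemma LL_sum : LL.sum = 7745969 := by decide +kernel

lemma LL_neg : ∀ k ∈ List.range' 60 180, acL LL k ≤ 0 := by decide +kernel

lemma LL_J : 10000 * jL LL 60 30 < 13155 * (6 * 60 * LL.sum ^ 2) := by decide +kernel

end Pool.Agent.H27.Cor
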