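import Mathlib
import Pool.Agent.H27.Cor.Vec

open MeasureTheory Set Filter Topology
open scoped Real Interval

/-!
# The bound for small windows and for the sum of the multiplicities
-/

namespace Pool.Agent.H27.Cor

open Pool.Agent.H5 Pool.Agent.H6

/-- `N*(T)`: the sum of the multiplicities over the nontrivial zeros `ρ` with `0 < Im ρ ≤ T` counted with
multiplicity, that is, every distinct zero contributes `m(ρ)²`. -/
noncomputable def multSum (T : ℝ) : ℝ :=
  ∑ᶠ ρ ∈ PC.zerosUpTo T, (analyticOrderNatAt riemannZeta ρ : ℝ) ^ 2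

/-- the zero with a given ordinate -/
noncomputable def toZero (i : PC.Z) : ℂ := 1 / 2 + ((i : ℝ) : ℂ) * Complex.I

lemma toZero_injective : Function.Injective toZero := by
  intro i j h
  have h1 := congrArg Complex.im h
  unfold toZero at h1
  simp at h1
  exact Subtype.ext h1

lemma zeros_eq (RH : RiemannHypothesis) (T : ℝ) : PC.zerosUpTo T = toZero '' ((FZ T : Finset PC.Z) : Set PC.Z) := by
  ext ρ
  simp only [Set.mem_image, Finset.mem_coe, mem_FZ]
  constructor
  · rintro ⟨a1, a2, a3, a4, a5⟩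
    have e1 := re_eq_half RH a1 a2 a3
    have z1 : ρ.im ∈ PC.Z := by unfold PC.Z; simp only [Set.mem_ofPred_eq]; rw [← e1]; exact a1
    refine ⟨⟨ρ.im, z1⟩, ⟨a4, a5⟩, ?_⟩
    unfold toZero
    simp only
    rw [← e1]
  · rintro ⟨i, ⟨a1, a2⟩, rfl⟩
    have him : (toZero i).im = gZ i := by simp [gZ, toZero]
    have hre : (toZero i).re = 1 / 2 := by simp [toZero]
    refine ⟨i.2, ?_, ?_, ?_, ?_⟩
    · rw [hre]; norm_num
    · rw [hre]; norm_num
    · rw [him]; exact a1
    · rw [him]; exact a2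

lemma multSum_eq (RH : RiemannHypothesis) (T : ℝ) : multSum T = ∑ i ∈ FZ T, wZ i ^ 2 := by
  unfold multSum
  rw [zeros_eq RH, finsum_mem_image toZero_injective.injOn, finsum_mem_coe_finset]
  rfl

lemma multSum_le (RH : RiemannHypothesis) {T b : ℝ} (hT : 1 < T) (hb : 0 ≤ b) :
    multSum T ≤ PC.pairCount T (-b) b := by
  have hn := norm_pos hT
  have h1 : PC.pairCount T (-b) b = PC.norm T * PW gZ wZ FZ T (-b) b := by
    rw [PW_eq RH hT]
    field_simp
  rw [h1, multSum_eq RH, PW, SF, ← mul_assoc, mul_one_div_cancel hn.ne', one_mul]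
  apply Finset.sum_le_sum
  intro i hi
  have h2 : ∀ j ∈ FZ T, 0 ≤ wZ i * wZ j * (if -b ≤ (gZ i - gZ j) * Real.log T / (2 * π) ∧
      (gZ i - gZ j) * Real.log T / (2 * π) ≤ b then (1 : ℝ) else 0) := by
    intro j _
    have := wZ_nonneg i
    have := wZ_nonneg j
    split_ifs <;> positivity
  refine le_trans ?_ (Finset.single_le_sum h2 hi)
  rw [if_pos]
  · rw [mul_one, pow_two]
  · rw [sub_self, zero_mul, zero_div]
    constructor <;> linarith

/-- Main statement, from the lower bound of the form factor. -/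
theorem nstar (RH : RiemannHypothesis) (hLB : LBH gZ wZ FZ) :
    ∃ b : ℝ, 0 < b ∧ ∀ᶠ T in atTop, multSum T ≤ PC.pairCount T (-b) b ∧
      PC.pairCount T (-b) b ≤ 13155 / 10000 * PC.norm T := by
  obtain ⟨CR, I⟩ := exists_inputs RH
  obtain ⟨b, hb, h⟩ := cert I hLB LL (n := 60) (p := 30) (by norm_num) (by norm_num)
    (fun k h1 h2 => LL_neg k (by
      rw [LL_length] at h2
      rw [List.mem_range'_1]
      omega)) (by rw [LL_sum]; norm_num) (u := 13155) (v := 10000) (by norm_num) (by norm_num) LL_J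
  refine ⟨b, hb, ?_⟩
  filter_upwards [h, eventually_gt_atTop 1] with T hT hT1
  have hn := norm_pos hT1
  refine ⟨multSum_le RH hT1 hb.le, ?_⟩
  rw [PW_eq RH hT1, div_le_iff₀ hn] at hT
  push_cast at hT
  exact hT

end Pool.Agent.H27.Cor
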