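import Mathlib
import Pool.Agent.H27.Cor.Low

/-!
# The integer vector for windows of half length `0.5775`
-/

open scoped Real

namespace Pool.Agent.H27.Cor

/-- coefficients of the piecewise linear function -/
def MM2 : List ℤ := [
  1469, 3343, 6058, 9583, 13899, 18934, 24623, 30907, 37732, 45008, 52684, 60744, 69200, 77892, 86630, 95444, 104248,
  112963, 121513, 129819, 137813, 145421, 152578, 159215, 165277, 170707, 175463, 179501, 182794, 185319, 187060,
  188002, 188142, 187475, 186009, 183751, 180717, 176924, 172401, 167184, 161321, 154857, 147851, 140369, 132479,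
  124246, 115748, 107057, 98256, 89418, 80620, 71931, 63423, 55212, 47347, 39878, 32886, 26434, 20581, 15372, 10862,
  7096, 4114, 1938, 583, 1, -51, -82, -37, 28, 62, 51, 22, -4, -19, -19, 15, 76, 116, 71]

lemma MM2_length : MM2.length = 80 := by decide +kernel

lemma MM2_cells1 : ∀ i ∈ List.range' 40 41, cellOK MM2 40 (231 ^ 2) (400 ^ 2) 2533029591 100000000000 i := by decide +kernel

lemma MM2_cells2 : ∀ i ∈ List.range' 40 41, cellOK MM2 40 (231 ^ 2) (400 ^ 2) 2533029592 100000000000 i := by decide +kernel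

lemma MM2_X1 : 0 < (231 : ℤ) ^ 2 * 100000000000 * PT MM2 40 20 + 20 * ((40 : ℕ) : ℤ) ^ 2 * 2533029591 * 400 ^ 2 * QT MM2 40 20 := by
  decide +kernel

lemma MM2_X2 : 0 < (231 : ℤ) ^ 2 * 100000000000 * PT MM2 40 20 + 20 * ((40 : ℕ) : ℤ) ^ 2 * 2533029592 * 400 ^ 2 * QT MM2 40 20 := by
  decide +kernel

lemma q_low : (((2533029591 : ℤ)) : ℝ) / ((100000000000 : ℤ) : ℝ) ≤ 1 / (4 * π ^ 2) := by
  have h1 := Real.pi_lt_d20
  have h0 := Real.pi_pos
  have h2 : π ^ 2 ≤ 3.14159265358979323847 ^ 2 := by gcongr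
  rw [div_le_div_iff₀ (by norm_num) (by positivity)]
  push_cast
  nlinarith

lemma q_up : 1 / (4 * π ^ 2) ≤ (((2533029592 : ℤ)) : ℝ) / ((100000000000 : ℤ) : ℝ) := by
  have h1 := Real.pi_gt_d20
  have h0 := Real.pi_pos
  have h2 : 3.14159265358979323846 ^ 2 ≤ π ^ 2 := by gcongr
  rw [div_le_div_iff₀ (by positivity) (by norm_num)]
  push_cast
  nlinarith

end Pool.Agent.H27.Cor
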