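import Mathlib
import Pool.Agent.H27.Cor.Vec2

open MeasureTheory Set Filter Topology
open scoped Real Interval

/-!
# More than the trivial number of pairs of zeros within `0.5775` times the average spacing
-/

namespace Pool.Agent.H27.Cor

open Pool.Agent.H5 Pool.Agent.H6

theorem smallWindow (RH : RiemannHypothesis) (hLB : LBH gZ wZ FZ) :
    ∃ c : ℝ, 0 < c ∧ ∀ᶠ T in atTop, (1 + c) * PC.norm T ≤ PC.pairCount T (-(231 / 400)) (231 / 400) := by
  obtain ⟨CR, I⟩ := exists_inputs RH
  obtain ⟨c, hc, h⟩ := certLow I one_le_wZ hLB MM2 (n := 40) (p := 20) (u := 231) (v := 400) (by norm_num) (by norm_num)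
    (by norm_num) (by norm_num) (by norm_num) q_low q_up
    (fun i h1 h2 => by
      rw [MM2_length] at h2
      have hm : i ∈ List.range' 40 41 := by rw [List.mem_range'_1]; omega
      exact ⟨MM2_cells1 i hm, MM2_cells2 i hm⟩) MM2_X1 MM2_X2
  refine ⟨c, hc, ?_⟩
  filter_upwards [h, eventually_gt_atTop 1] with T hT hT1
  have hn := norm_pos hT1
  push_cast at hT
  rw [PW_eq RH hT1, le_div_iff₀ hn] at hT
  exact hT

end Pool.Agent.H27.Cor
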